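import Pool.Agent.H95.Stk.Defs

/-!
# Lorentz form and angles of spacelike vectors
-/

namespace Pool.Agent.H95.Stk

open Pool.Agent.Helper101_Scrib (Amb)

variable {d : ℕ}

theorem zero_pos_of_Bc {z : Amb d} (hz : z ∈ Bc d) (hz0 : z ≠ 0) : 0 < z 0 := by
  refine lt_of_le_of_ne hz.2 (fun h => hz0 ?_)
  have h1 := hz.1
  rw [← h] at h1
  have h2 : ∑ i : Fin d, z i.succ ^ 2 = 0 :=
    le_antisymm (by simpa using h1) (Finset.sum_nonneg fun i _ => sq_nonneg _)
  rw [Finset.sum_eq_zero_iff_of_nonneg fun i _ => sq_nonneg _] at h2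
  ext k
  refine Fin.cases ?_ (fun i => ?_) k
  · exact h.symm
  · exact pow_eq_zero_iff (two_ne_zero) |>.1 (h2 i (Finset.mem_univ i))

theorem Bc_add {x y : Amb d} (hx : x ∈ Bc d) (hy : y ∈ Bc d) (hx0 : x ≠ 0) (hy0 : y ≠ 0)
    (hind : ∀ a b : ℝ, a • x + b • y = 0 → a = 0 ∧ b = 0) :
    0 < (x + y) 0 ∧ bq (x + y) (x + y) < 0 := by
  have h1 := zero_pos_of_Bc hx hx0
  have h2 := zero_pos_of_Bc hy hy0
  refine ⟨add_pos h1 h2, ?_⟩
  have qx : bq x x ≤ 0 := by rw [bq_self]; exact hx.1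
  have qy : bq y y ≤ 0 := by rw [bq_self]; exact hy.1
  set u : Amb d := y 0 • x + (-(x 0)) • y with hu
  have hu0 : u ≠ 0 := by
    intro h
    have := (hind _ _ h).1
    exact h2.ne' this
  have hu00 : u 0 = 0 := by
    simp only [hu, Pi.add_apply, Pi.smul_apply, smul_eq_mul]
    ring
  have hq : 0 < bq u u := by
    rw [bq_self, hu00]
    have h3 : 0 ≤ ∑ i : Fin d, u i.succ ^ 2 := Finset.sum_nonneg fun i _ => sq_nonneg _
    rcases h3.lt_or_eq with h4 | h4
    · simpa using h4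
    · exfalso
      apply hu0
      have h5 := h4.symm
      rw [Finset.sum_eq_zero_iff_of_nonneg fun i _ => sq_nonneg _] at h5
      ext k
      refine Fin.cases ?_ (fun i => ?_) k
      · exact hu00
      · exact pow_eq_zero_iff (two_ne_zero) |>.1 (h5 i (Finset.mem_univ i))
  have hexp : bq u u = y 0 ^ 2 * bq x x + x 0 ^ 2 * bq y y - 2 * (x 0 * y 0) * bq x y := by
    rw [hu]
    simp only [map_add, map_smul, LinearMap.add_apply, LinearMap.smul_apply, smul_eq_mul]
    rw [bq_comm y x]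
    ring
  have hxy : bq x y < 0 := by
    by_contra hcon
    push Not at hcon
    have h3 : 0 ≤ 2 * (x 0 * y 0) * bq x y := by positivity
    have h4 : y 0 ^ 2 * bq x x ≤ 0 := mul_nonpos_of_nonneg_of_nonpos (by positivity) qx
    have h5 : x 0 ^ 2 * bq y y ≤ 0 := mul_nonpos_of_nonneg_of_nonpos (by positivity) qy
    linarith
  simp only [map_add, LinearMap.add_apply]
  rw [bq_comm y x]
  linarith

theorem bq_nonneg_of_orth {z n : Amb d} (hz : z ∈ Bc d) (hz0 : z ≠ 0) (h : bq n z = 0) :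
    0 ≤ bq n n := by
  have h1 := zero_pos_of_Bc hz hz0
  rw [bq_apply] at h
  rw [bq_self]
  have h2 := Finset.sum_mul_sq_le_sq_mul_sq Finset.univ (fun i : Fin d => n i.succ)
    (fun i : Fin d => z i.succ)
  have h3 : (n 0 * z 0) ^ 2 ≤ (∑ i : Fin d, n i.succ ^ 2) * ∑ i : Fin d, z i.succ ^ 2 := by
    have : n 0 * z 0 = ∑ i : Fin d, n i.succ * z i.succ := by linarith
    rw [this]
    exact h2
  have h4 : 0 ≤ ∑ i : Fin d, n i.succ ^ 2 := Finset.sum_nonneg fun i _ => sq_nonneg _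
  have h5 := hz.1
  have h6 : (n 0 * z 0) ^ 2 ≤ (∑ i : Fin d, n i.succ ^ 2) * z 0 ^ 2 :=
    h3.trans (mul_le_mul_of_nonneg_left (by linarith) h4)
  have h7 : n 0 ^ 2 * z 0 ^ 2 ≤ (∑ i : Fin d, n i.succ ^ 2) * z 0 ^ 2 := by
    rw [← mul_pow]; exact h6
  have h8 := le_of_mul_le_mul_right h7 (by positivity)
  linarith

theorem bq_pos_of_orth {z n : Amb d} (hz0 : 0 < z 0) (hz : bq z z < 0) (h : bq n z = 0)
    (hn : n ≠ 0) : 0 < bq n n := by
  rw [bq_self] at hz
  rw [bq_apply] at h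
  rw [bq_self]
  have h2 := Finset.sum_mul_sq_le_sq_mul_sq Finset.univ (fun i : Fin d => n i.succ)
    (fun i : Fin d => z i.succ)
  have h3 : (n 0 * z 0) ^ 2 ≤ (∑ i : Fin d, n i.succ ^ 2) * ∑ i : Fin d, z i.succ ^ 2 := by
    have : n 0 * z 0 = ∑ i : Fin d, n i.succ * z i.succ := by linarith
    rw [this]
    exact h2
  have h4 : 0 ≤ ∑ i : Fin d, n i.succ ^ 2 := Finset.sum_nonneg fun i _ => sq_nonneg _
  rcases h4.lt_or_eq with h5 | h5
  · have h6 : (n 0 * z 0) ^ 2 < (∑ i : Fin d, n i.succ ^ 2) * z 0 ^ 2 :=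
      h3.trans_lt (mul_lt_mul_of_pos_left (by linarith) h5)
    have h7 : n 0 ^ 2 * z 0 ^ 2 < (∑ i : Fin d, n i.succ ^ 2) * z 0 ^ 2 := by
      rw [← mul_pow]; exact h6
    have h8 := lt_of_mul_lt_mul_right h7 (by positivity)
    linarith
  · exfalso
    apply hn
    have h6 := h5.symm
    rw [Finset.sum_eq_zero_iff_of_nonneg fun i _ => sq_nonneg _] at h6
    have h7 : ∀ i : Fin d, n i.succ = 0 := fun i =>
      pow_eq_zero_iff (two_ne_zero) |>.1 (h6 i (Finset.mem_univ i))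
    have h8 : n 0 = 0 := by
      rw [← h5, zero_mul] at h3
      have h9 := pow_eq_zero_iff (two_ne_zero) |>.1 (le_antisymm h3 (sq_nonneg _))
      exact (mul_eq_zero.1 h9).resolve_right hz0.ne'
    ext k
    refine Fin.cases ?_ (fun i => ?_) k
    · exact h8
    · exact h7 i

/-- Cauchy-Schwarz on the orthogonal complement of a causal vector. -/
theorem cs {z x y : Amb d} (hz : z ∈ Bc d) (hz0 : z ≠ 0) (hx : bq x z = 0) (hy : bq y z = 0) :
    bq x y ^ 2 ≤ bq x x * bq y y := by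
  have key : ∀ t : ℝ, 0 ≤ bq y y * (t * t) + (2 * bq x y) * t + bq x x := by
    intro t
    have h1 : 0 ≤ bq (x + t • y) (x + t • y) := by
      apply bq_nonneg_of_orth hz hz0
      rw [map_add, LinearMap.add_apply, map_smul, LinearMap.smul_apply, hx, hy]
      simp
    simp only [map_add, map_smul, LinearMap.add_apply, LinearMap.smul_apply, smul_eq_mul] at h1
    rw [bq_comm y x] at h1
    linarith
  have := discrim_le_zero key
  rw [discrim] at this
  nlinarith

theorem ang_nonneg (n m : Amb d) : 0 ≤ ang n m := Real.arccos_nonneg _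

theorem ang_le_pi (n m : Amb d) : ang n m ≤ Real.pi := Real.arccos_le_pi _

theorem ang_comm (n m : Amb d) : ang n m = ang m n := by
  rw [ang, ang, bq_comm, mul_comm (√_)]

theorem ang_of_nonpos {n m : Amb d} (h : bq n m ≤ 0) : Real.pi / 2 ≤ ang n m := by
  rw [ang]
  rw [← Real.arccos_zero]
  apply Real.antitone_arccos
  exact div_nonpos_of_nonpos_of_nonneg h (by positivity)

theorem arccos_tri {a b c : ℝ} (ha : -1 ≤ a) (ha' : a ≤ 1) (hb : -1 ≤ b) (hb' : b ≤ 1)
    (h : (c - a * b) ^ 2 ≤ (1 - a ^ 2) * (1 - b ^ 2)) :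
    Real.arccos c ≤ Real.arccos a + Real.arccos b := by
  have hcos : Real.cos (Real.arccos a + Real.arccos b) =
      a * b - √((1 - a ^ 2) * (1 - b ^ 2)) := by
    rw [Real.cos_add, Real.cos_arccos ha ha', Real.cos_arccos hb hb', Real.sin_arccos,
      Real.sin_arccos, Real.sqrt_mul]
    nlinarith
  have hle : Real.cos (Real.arccos a + Real.arccos b) ≤ c := by
    rw [hcos]
    have := Real.abs_le_sqrt h
    have := (abs_le.1 this).1
    linarith
  by_cases hpi : Real.arccos a + Real.arccos b ≤ Real.pi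
  · have h1 := Real.antitone_arccos hle
    rwa [Real.arccos_cos (add_nonneg (Real.arccos_nonneg _) (Real.arccos_nonneg _)) hpi] at h1
  · push Not at hpi
    exact (Real.arccos_le_pi c).trans hpi.le

theorem cos_bound {p q r : ℝ} (hp : 0 < p) (hq : 0 < q) (h : r ^ 2 ≤ p * q) :
    -1 ≤ r / (√p * √q) ∧ r / (√p * √q) ≤ 1 := by
  have hs : 0 < √p * √q := mul_pos (Real.sqrt_pos.2 hp) (Real.sqrt_pos.2 hq)
  have h1 : |r| ≤ √p * √q := by
    rw [← Real.sqrt_mul hp.le]
    exact Real.abs_le_sqrt h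
  have h2 := abs_le.1 h1
  constructor
  · rw [le_div_iff₀ hs]; linarith
  · rw [div_le_iff₀ hs]; linarith

/-- Triangle inequality for angles. -/
theorem ang_tri {z n m k : Amb d} (hz : z ∈ Bc d) (hz0 : z ≠ 0) (hn : bq n z = 0)
    (hm : bq m z = 0) (hk : bq k z = 0) (qn : 0 < bq n n) (qm : 0 < bq m m) (qk : 0 < bq k k) :
    ang n k ≤ ang n m + ang m k := by
  obtain ⟨a1, a2⟩ := cos_bound qn qm (cs hz hz0 hn hm)
  obtain ⟨b1, b2⟩ := cos_bound qm qk (cs hz hz0 hm hk)
  rw [ang, ang, ang]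
  apply arccos_tri a1 a2 b1 b2
  -- Cauchy-Schwarz for the projections
  have h1 := cs (x := bq m m • n - bq n m • m) (y := bq m m • k - bq m k • m) hz hz0
    (by simp [hn, hm]) (by simp [hk, hm])
  simp only [map_sub, map_smul, LinearMap.sub_apply, LinearMap.smul_apply, smul_eq_mul] at h1
  rw [bq_comm m n, bq_comm k m] at h1
  set α := bq n m
  set β := bq m k
  set γ := bq n k
  set M := bq m m
  set P := bq n n
  set Q := bq k k
  have h2 : (M * (M * γ - α * β)) ^ 2 ≤ (M * (M * P - α ^ 2)) * (M * (M * Q - β ^ 2)) := by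
    nlinarith [h1]
  have sP : √P ^ 2 = P := Real.sq_sqrt qn.le
  have sM : √M ^ 2 = M := Real.sq_sqrt qm.le
  have sQ : √Q ^ 2 = Q := Real.sq_sqrt qk.le
  have pP : 0 < √P := Real.sqrt_pos.2 qn
  have pM : 0 < √M := Real.sqrt_pos.2 qm
  have pQ : 0 < √Q := Real.sqrt_pos.2 qk
  have e1 : γ / (√P * √Q) - α / (√P * √M) * (β / (√M * √Q)) = (M * γ - α * β) / (M * (√P * √Q)) := by
    have e0 : α / (√P * √M) * (β / (√M * √Q)) = α * β / (M * (√P * √Q)) := by
      rw [div_mul_div_comm]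
      congr 1
      calc √P * √M * (√M * √Q) = √M ^ 2 * (√P * √Q) := by ring
        _ = _ := by rw [sM]
    rw [e0]
    field_simp
  have e2 : 1 - (α / (√P * √M)) ^ 2 = (M * P - α ^ 2) / (M * P) := by
    rw [div_pow, mul_pow, sP, sM]
    field_simp
    try ring
  have e3 : 1 - (β / (√M * √Q)) ^ 2 = (M * Q - β ^ 2) / (M * Q) := by
    rw [div_pow, mul_pow, sQ, sM]
    field_simp
    try ring
  rw [e1, e2, e3, div_pow, mul_pow, mul_pow, sP, sQ, div_mul_div_comm]
  rw [div_le_div_iff₀ (by positivity) (by positivity)]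
  have h3 : (M * γ - α * β) ^ 2 ≤ (M * P - α ^ 2) * (M * Q - β ^ 2) := by
    have hM2 : 0 < M ^ 2 := by positivity
    nlinarith [h2]
  nlinarith [mul_le_mul_of_nonneg_right h3 (by positivity : (0:ℝ) ≤ M ^ 2 * (P * Q))]

theorem arccos_between {A B c W : ℝ} (hA : 0 ≤ A) (hB : 0 ≤ B) (hc : -1 ≤ c) (hc' : c ≤ 1)
    (hW : W = A ^ 2 + B ^ 2 + 2 * A * B * c) (hWp : 0 < W) :
    Real.arccos ((A + B * c) / √W) + Real.arccos ((A * c + B) / √W) = Real.arccos c := by
  have sW : √W ^ 2 = W := Real.sq_sqrt hWp.le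
  have pW : 0 < √W := Real.sqrt_pos.2 hWp
  have h1c : 0 ≤ 1 - c ^ 2 := by nlinarith
  have b1 : -1 ≤ (A + B * c) / √W ∧ (A + B * c) / √W ≤ 1 := by
    have h1 : |A + B * c| ≤ √W := by
      apply Real.abs_le_sqrt
      nlinarith [mul_nonneg (sq_nonneg B) h1c]
    have h2 := abs_le.1 h1
    constructor
    · rw [le_div_iff₀ pW]; linarith
    · rw [div_le_iff₀ pW]; linarith
  have b2 : -1 ≤ (A * c + B) / √W ∧ (A * c + B) / √W ≤ 1 := by
    have h1 : |A * c + B| ≤ √W := by
      apply Real.abs_le_sqrt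
      nlinarith [mul_nonneg (sq_nonneg A) h1c]
    have h2 := abs_le.1 h1
    constructor
    · rw [le_div_iff₀ pW]; linarith
    · rw [div_le_iff₀ pW]; linarith
  have s1 : Real.sin (Real.arccos ((A + B * c) / √W)) = B * √(1 - c ^ 2) / √W := by
    rw [Real.sin_arccos]
    have : 1 - ((A + B * c) / √W) ^ 2 = (B * √(1 - c ^ 2) / √W) ^ 2 := by
      rw [div_pow, div_pow, mul_pow, Real.sq_sqrt h1c, sW]
      field_simp
      rw [hW]
      ring
    rw [this, Real.sqrt_sq (by positivity)]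
  have s2 : Real.sin (Real.arccos ((A * c + B) / √W)) = A * √(1 - c ^ 2) / √W := by
    rw [Real.sin_arccos]
    have : 1 - ((A * c + B) / √W) ^ 2 = (A * √(1 - c ^ 2) / √W) ^ 2 := by
      rw [div_pow, div_pow, mul_pow, Real.sq_sqrt h1c, sW]
      field_simp
      rw [hW]
      ring
    rw [this, Real.sqrt_sq (by positivity)]
  have hcos : Real.cos (Real.arccos ((A + B * c) / √W) + Real.arccos ((A * c + B) / √W)) = c := by
    rw [Real.cos_add, s1, s2, Real.cos_arccos b1.1 b1.2, Real.cos_arccos b2.1 b2.2]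
    have hs : √(1 - c ^ 2) ^ 2 = 1 - c ^ 2 := Real.sq_sqrt h1c
    rw [div_mul_div_comm, div_mul_div_comm, ← sub_div, ← sq, sW, div_eq_iff hWp.ne']
    rw [show B * √(1 - c ^ 2) * (A * √(1 - c ^ 2)) = A * B * √(1 - c ^ 2) ^ 2 by ring, hs, hW]
    ring
  have hle : Real.arccos ((A + B * c) / √W) + Real.arccos ((A * c + B) / √W) ≤ Real.pi := by
    have h1 : -((A * c + B) / √W) ≤ (A + B * c) / √W := by
      rw [← neg_div, div_le_div_iff_of_pos_right pW]
      nlinarith
    have h2 := Real.antitone_arccos h1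
    rw [Real.arccos_neg] at h2
    linarith
  rw [← Real.arccos_cos (add_nonneg (Real.arccos_nonneg _) (Real.arccos_nonneg _)) hle, hcos]

/-- Angles add up for a vector in between. -/
theorem ang_between {z u v w : Amb d} {A B : ℝ} (hz : z ∈ Bc d) (hz0 : z ≠ 0) (hu : bq u z = 0)
    (hv : bq v z = 0) (qu : 0 < bq u u) (qv : 0 < bq v v) (qw : 0 < bq w w) (hA : 0 ≤ A)
    (hB : 0 ≤ B) (hw : w = A • u + B • v) : ang u w + ang w v = ang u v := by
  obtain ⟨c1, c2⟩ := cos_bound qu qv (cs hz hz0 hu hv)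
  have su : √(bq u u) ^ 2 = bq u u := Real.sq_sqrt qu.le
  have sv : √(bq v v) ^ 2 = bq v v := Real.sq_sqrt qv.le
  have pu : 0 < √(bq u u) := Real.sqrt_pos.2 qu
  have pv : 0 < √(bq v v) := Real.sqrt_pos.2 qv
  have hww : bq w w = (A * √(bq u u)) ^ 2 + (B * √(bq v v)) ^ 2 +
      2 * (A * √(bq u u)) * (B * √(bq v v)) * (bq u v / (√(bq u u) * √(bq v v))) := by
    rw [mul_pow, mul_pow, su, sv, hw]
    simp only [map_add, map_smul, LinearMap.add_apply, LinearMap.smul_apply, smul_eq_mul]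
    rw [bq_comm v u]
    field_simp
    ring
  have huw : bq u w / (√(bq u u) * √(bq w w)) =
      (A * √(bq u u) + B * √(bq v v) * (bq u v / (√(bq u u) * √(bq v v)))) / √(bq w w) := by
    have : bq u w = A * bq u u + B * bq u v := by
      rw [hw]; simp
    rw [this, ← div_div]
    congr 1
    rw [div_eq_iff pu.ne']
    nth_rewrite 1 [← su]
    field_simp
  have hwv : bq w v / (√(bq w w) * √(bq v v)) =
      (A * √(bq u u) * (bq u v / (√(bq u u) * √(bq v v))) + B * √(bq v v)) / √(bq w w) := by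
    have : bq w v = A * bq u v + B * bq v v := by
      rw [hw]; simp
    rw [this, mul_comm (√(bq w w)), ← div_div]
    congr 1
    rw [div_eq_iff pv.ne']
    nth_rewrite 1 [← sv]
    field_simp
  rw [ang, ang, ang, huw, hwv]
  exact arccos_between (by positivity) (by positivity) c1 c2 hww qw

end Pool.Agent.H95.Stk
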