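import Pool.Agent.H95.Stk.Defs

/-!
# Normals of faces in a realization of a state
-/

namespace Pool.Agent.H95.Stk

open Pool.Agent.Helper101_Scrib (Amb conicHull IsFace linDim SameType IsPolytopeCone)

variable {d : ℕ}

theorem inc_indep {s : St} {v : ℕ → Amb d} (h : Good d s) (hI : Inc v s) {S : Finset ℕ}
    (hS : S ∈ s.Fc) {c : ℕ → ℝ} (hc : ∑ t ∈ S, c t • v t = 0) : ∀ t ∈ S, c t = 0 := by
  intro x hx
  obtain ⟨S', hS', hsub, hxS'⟩ := h.nbr S hS x hx
  obtain ⟨n, hn0, hnp⟩ := hI S' hS'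
  have h1 := congrArg (bq n) hc
  rw [map_sum, map_zero, Finset.sum_eq_single x] at h1
  · rw [map_smul, smul_eq_mul, mul_eq_zero] at h1
    exact h1.resolve_right (hnp x (h.lt S hS x hx) hxS').ne'
  · intro t ht htx
    rw [map_smul, hn0 t (hsub (Finset.mem_erase.2 ⟨htx, ht⟩)), smul_zero]
  · intro hx'
    exact absurd hx hx'

theorem inc_sub_nrm {s : St} {v : ℕ → Amb d} (h : Good d s) (hI : Inc v s) {T : Finset ℕ}
    (hT : Sub s T) : ∃ n, Nrm v s.N T n := by
  classical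
  obtain ⟨S, hS, hTS⟩ := hT
  choose! g hg hgs hgx using h.nbr S hS
  choose! m hm using hI
  have hpos : ∀ S' ∈ s.Fc, ∀ t < s.N, 0 ≤ bq (m S') (v t) := by
    intro S' hS' t ht
    by_cases htS : t ∈ S'
    · exact ((hm S' hS').1 t htS).ge
    · exact ((hm S' hS').2 t ht htS).le
  refine ⟨m S + ∑ x ∈ S \ T, m (g x), ?_, ?_⟩
  · intro t ht
    rw [map_add, LinearMap.add_apply, map_sum, LinearMap.sum_apply, (hm S hS).1 t (hTS.1 ht),
      zero_add]
    apply Finset.sum_eq_zero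
    intro x hx
    rw [Finset.mem_sdiff] at hx
    refine (hm _ (hg x hx.1)).1 t (hgs x hx.1 (Finset.mem_erase.2 ⟨?_, hTS.1 ht⟩))
    rintro rfl
    exact hx.2 ht
  · intro t ht htT
    rw [map_add, LinearMap.add_apply, map_sum, LinearMap.sum_apply]
    by_cases htS : t ∈ S
    · have h1 : 0 < ∑ x ∈ S \ T, bq (m (g x)) (v t) :=
        Finset.sum_pos' (fun x hx => hpos _ (hg x (Finset.mem_sdiff.1 hx).1) t ht)
          ⟨t, Finset.mem_sdiff.2 ⟨htS, htT⟩, (hm _ (hg t htS)).2 t ht (hgx t htS)⟩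
      have h2 := hpos S hS t ht
      linarith
    · have h1 : 0 ≤ ∑ x ∈ S \ T, bq (m (g x)) (v t) :=
        Finset.sum_nonneg fun x hx => hpos _ (hg x (Finset.mem_sdiff.1 hx).1) t ht
      have h2 := (hm S hS).2 t ht htS
      linarith

end Pool.Agent.H95.Stk
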