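import Pool.Agent.H95.Stk.Defs

namespace Pool.Agent.H95.Stk

open Pool.Agent.Helper101_Scrib (Amb conicHull IsFace linDim SameType IsPolytopeCone)

variable {d : ℕ}

namespace COMBx

theorem mem_stk {s : St} {F S : Finset ℕ} :
    S ∈ (s.stk F).Fc ↔ (S ≠ F ∧ S ∈ s.Fc) ∨ ∃ x ∈ F, insert s.N (F.erase x) = S := by
  simp only [St.stk, Finset.mem_union, Finset.mem_erase, Finset.mem_image]

theorem old_mem {s : St} {F S : Finset ℕ} (h : S ∈ s.Fc) (hne : S ≠ F) : S ∈ (s.stk F).Fc :=
  mem_stk.mpr (Or.inl ⟨hne, h⟩)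

theorem new_mem {s : St} {F : Finset ℕ} {x : ℕ} (hx : x ∈ F) :
    insert s.N (F.erase x) ∈ (s.stk F).Fc := mem_stk.mpr (Or.inr ⟨x, hx, rfl⟩)

theorem N_notMem {s : St} (h : Good d s) {S : Finset ℕ} (hS : S ∈ s.Fc) : s.N ∉ S :=
  fun hN => lt_irrefl _ (h.lt S hS _ hN)

theorem exists_ne_mem (hd : 2 ≤ d) {F : Finset ℕ} (hF : F.card = d) (t : ℕ) :
    ∃ x ∈ F, x ≠ t := by
  by_contra hcon
  push Not at hcon
  have : F ⊆ {t} := fun x hx => Finset.mem_singleton.mpr (hcon x hx)
  have := Finset.card_le_card this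
  rw [Finset.card_singleton] at this
  omega

end COMBx

open COMBx

theorem good_init (hd : 2 ≤ d) : Good d (St.init d) := by
  have hmem : ∀ S, S ∈ (St.init d).Fc ↔ ∃ x ∈ Finset.range (d + 1),
      (Finset.range (d + 1)).erase x = S := by
    intro S
    simp only [St.init, Finset.mem_image]
  refine ⟨?_, ?_, ?_, ?_⟩
  · intro S hS
    obtain ⟨x, hx, rfl⟩ := (hmem S).mp hS
    rw [Finset.card_erase_of_mem hx, Finset.card_range]
    omega
  · intro S hS t ht
    obtain ⟨x, hx, rfl⟩ := (hmem S).mp hS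
    exact Finset.mem_range.mp (Finset.mem_of_mem_erase ht)
  · intro t ht
    have ht' : t < d + 1 := ht
    obtain ⟨x, hx, hne⟩ := exists_ne_mem (d := d + 1) (by omega)
      (Finset.card_range (d + 1)) t
    exact ⟨_, (hmem _).mpr ⟨x, hx, rfl⟩,
      Finset.mem_erase.mpr ⟨fun e => hne e.symm, Finset.mem_range.mpr ht'⟩⟩
  · intro S hS x hx
    obtain ⟨y, hy, rfl⟩ := (hmem S).mp hS
    have hx' := Finset.mem_of_mem_erase hx
    refine ⟨(Finset.range (d + 1)).erase x, (hmem _).mpr ⟨x, hx', rfl⟩, ?_, ?_⟩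
    · intro z hz
      have h1 := Finset.mem_erase.mp hz
      exact Finset.mem_erase.mpr ⟨h1.1, Finset.mem_of_mem_erase h1.2⟩
    · exact Finset.notMem_erase _ _

theorem good_stk {s : St} {F : Finset ℕ} (hd : 2 ≤ d) (h : Good d s) (hF : F ∈ s.Fc) :
    Good d (s.stk F) := by
  have hNF := N_notMem h hF
  refine ⟨?_, ?_, ?_, ?_⟩
  · intro S hS
    rcases mem_stk.mp hS with ⟨_, hS'⟩ | ⟨x, hx, rfl⟩
    · exact h.card S hS'
    · rw [Finset.card_insert_of_notMem (fun hc => hNF (Finset.mem_of_mem_erase hc)),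
        Finset.card_erase_of_mem hx, h.card F hF]
      omega
  · intro S hS t ht
    show t < s.N + 1
    rcases mem_stk.mp hS with ⟨_, hS'⟩ | ⟨x, hx, rfl⟩
    · exact Nat.lt_succ_of_lt (h.lt S hS' t ht)
    · rcases Finset.mem_insert.mp ht with rfl | ht'
      · exact Nat.lt_succ_self _
      · exact Nat.lt_succ_of_lt (h.lt F hF t (Finset.mem_of_mem_erase ht'))
  · intro t ht
    have ht' : t < s.N + 1 := ht
    rcases Nat.lt_succ_iff_lt_or_eq.mp ht' with ht1 | rfl
    · obtain ⟨S, hS, htS⟩ := h.mem t ht1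
      by_cases hSF : S = F
      · subst hSF
        obtain ⟨x, hx, hne⟩ := exists_ne_mem hd (h.card S hF) t
        exact ⟨_, new_mem hx, Finset.mem_insert_of_mem
          (Finset.mem_erase.mpr ⟨fun e => hne e.symm, htS⟩)⟩
      · exact ⟨S, old_mem hS hSF, htS⟩
    · obtain ⟨x, hx, _⟩ := exists_ne_mem hd (h.card F hF) s.N
      exact ⟨_, new_mem hx, Finset.mem_insert_self _ _⟩
  · intro S hS x hx
    rcases mem_stk.mp hS with ⟨hSF, hS'⟩ | ⟨x0, hx0, rfl⟩
    · obtain ⟨S', hS'm, hsub, hxS'⟩ := h.nbr S hS' x hx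
      by_cases hS'F : S' = F
      · subst hS'F
        have hcard : (S.erase x).card < S'.card := by
          rw [Finset.card_erase_of_mem hx, h.card S hS', h.card S' hF]
          omega
        obtain ⟨y, hy, hyn⟩ := Finset.exists_mem_notMem_of_card_lt_card hcard
        refine ⟨insert s.N (S'.erase y), new_mem hy, ?_, ?_⟩
        · intro z hz
          refine Finset.mem_insert_of_mem (Finset.mem_erase.mpr ⟨?_, hsub hz⟩)
          rintro rfl
          exact hyn hz
        · intro hc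
          rcases Finset.mem_insert.mp hc with hc' | hc'
          · exact N_notMem h hS' (hc' ▸ hx)
          · exact hxS' (Finset.mem_of_mem_erase hc')
      · exact ⟨S', old_mem hS'm hS'F, hsub, hxS'⟩
    · rcases Finset.mem_insert.mp hx with rfl | hx'
      · obtain ⟨S', hS'm, hsub, hxS'⟩ := h.nbr F hF x0 hx0
        have hne : S' ≠ F := by
          rintro rfl
          exact hxS' hx0
        refine ⟨S', old_mem hS'm hne, ?_, N_notMem h hS'm⟩
        intro z hz
        rcases Finset.mem_insert.mp (Finset.mem_of_mem_erase hz) with rfl | hz'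
        · exact absurd rfl (Finset.ne_of_mem_erase hz)
        · exact hsub hz'
      · have hxF := Finset.mem_of_mem_erase hx'
        refine ⟨insert s.N (F.erase x), new_mem hxF, ?_, ?_⟩
        · intro z hz
          have h1 := Finset.mem_erase.mp hz
          rcases Finset.mem_insert.mp h1.2 with rfl | hz'
          · exact Finset.mem_insert_self _ _
          · exact Finset.mem_insert_of_mem
              (Finset.mem_erase.mpr ⟨h1.1, Finset.mem_of_mem_erase hz'⟩)
        · intro hc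
          rcases Finset.mem_insert.mp hc with hc' | hc'
          · exact hNF (hc' ▸ hxF)
          · exact absurd rfl (Finset.ne_of_mem_erase hc')

theorem sub_stk {s : St} {F T : Finset ℕ} (h : Good d s) (hF : F ∈ s.Fc) (hT : Sub s T) :
    Sub (s.stk F) T := by
  obtain ⟨S, hS, hTS⟩ := hT
  by_cases hSF : S = F
  · subst hSF
    obtain ⟨x, hx, hxT⟩ := Finset.exists_of_ssubset hTS
    refine ⟨insert s.N (S.erase x), new_mem hx, ?_⟩
    have hsub : T ⊆ S.erase x := fun z hz =>
      Finset.mem_erase.mpr ⟨fun e => hxT (e ▸ hz), hTS.1 hz⟩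
    refine ⟨fun z hz => Finset.mem_insert_of_mem (hsub hz), fun hc => ?_⟩
    have h1 : s.N ∈ T := hc (Finset.mem_insert_self _ _)
    exact N_notMem h hF (hTS.1 h1)
  · exact ⟨S, old_mem hS hSF, hTS⟩

namespace COMBx

theorem exists_bq (l : Amb d →ₗ[ℝ] ℝ) : ∃ n : Amb d, ∀ y, bq n y = l y := by
  refine ⟨fun i => if i = 0 then -(l fun j => if (0 : Fin (d + 1)) = j then 1 else 0)
    else l fun j => if i = j then 1 else 0, fun y => ?_⟩
  rw [bq_apply, LinearMap.pi_apply_eq_sum_univ l y, Fin.sum_univ_succ]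
  simp only [Fin.succ_ne_zero, if_false, if_true, smul_eq_mul]
  congr 1
  · ring
  · exact Finset.sum_congr rfl fun i _ => mul_comm _ _

theorem exists_dual (v : ℕ → Amb d) (G : Finset ℕ) (hcard : G.card = d + 1)
    (hli : ∀ c : ℕ → ℝ, ∑ t ∈ G, c t • v t = 0 → ∀ t ∈ G, c t = 0) {a : ℕ} (ha : a ∈ G) :
    ∃ l : Amb d →ₗ[ℝ] ℝ, l (v a) = -1 ∧ (∀ t ∈ G, t ≠ a → l (v t) = 0) ∧
      ∀ w, ∃ c : ℕ → ℝ, w = ∑ t ∈ G, c t • v t ∧ l w = -c a := by
  have hli' : LinearIndependent ℝ (fun t : G => v t) := by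
    rw [Fintype.linearIndependent_iff]
    intro c hc i
    have h1 := hli (fun t => if h : t ∈ G then c ⟨t, h⟩ else 0) (by
      rw [← Finset.sum_coe_sort]
      rw [← hc]
      refine Finset.sum_congr rfl fun j _ => ?_
      simp)
      i i.2
    simpa using h1
  have hfr : Fintype.card G = Module.finrank ℝ (Amb d) := by
    rw [Fintype.card_coe, hcard]
    simp [Amb]
  have : Nonempty G := ⟨⟨a, ha⟩⟩
  set b := basisOfLinearIndependentOfCardEqFinrank hli' hfr with hb
  have hbv : ∀ i : G, b i = v i := fun i => by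
    rw [hb, coe_basisOfLinearIndependentOfCardEqFinrank]
  refine ⟨-(b.coord ⟨a, ha⟩), ?_, ?_, ?_⟩
  · rw [LinearMap.neg_apply, ← hbv ⟨a, ha⟩]
    simp
  · intro t ht hta
    rw [LinearMap.neg_apply, ← hbv ⟨t, ht⟩]
    simp only [Module.Basis.coord_apply, Module.Basis.repr_self, neg_eq_zero]
    rw [Finsupp.single_eq_of_ne]
    intro e
    exact hta (congrArg Subtype.val e).symm
  · intro w
    refine ⟨fun t => if h : t ∈ G then b.repr w ⟨t, h⟩ else 0, ?_, ?_⟩
    · rw [← Finset.sum_coe_sort]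
      conv_lhs => rw [← b.sum_repr w]
      refine Finset.sum_congr rfl fun j _ => ?_
      rw [hbv]
      simp
    · simp [ha]

end COMBx

theorem unstack {s : St} {F : Finset ℕ} {v : ℕ → Amb d} (hd : 2 ≤ d) (h : Good d s)
    (hF : F ∈ s.Fc) (hI : Inc v (s.stk F)) :
    Inc v s ∧ ∃ n, Nrm v s.N F n ∧ bq n (v s.N) < 0 := by
  have hNF := N_notMem h hF
  have hstkN : (s.stk F).N = s.N + 1 := rfl
  -- the normals of the new facets
  have hl : ∀ x ∈ F, ∃ m : Amb d, Nrm v (s.N + 1) (insert s.N (F.erase x)) m :=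
    fun x hx => hI _ (new_mem hx)
  choose! l hl using hl
  have hlN : ∀ x ∈ F, bq (l x) (v s.N) = 0 := fun x hx =>
    (hl x hx).1 _ (Finset.mem_insert_self _ _)
  have hl0 : ∀ x ∈ F, ∀ t ∈ F, t ≠ x → bq (l x) (v t) = 0 := fun x hx t ht htx =>
    (hl x hx).1 _ (Finset.mem_insert_of_mem (Finset.mem_erase.mpr ⟨htx, ht⟩))
  have hlx : ∀ x ∈ F, 0 < bq (l x) (v x) := by
    intro x hx
    refine (hl x hx).2 x (Nat.lt_succ_of_lt (h.lt F hF x hx)) ?_
    intro hc
    rcases Finset.mem_insert.mp hc with hc' | hc'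
    · exact hNF (hc' ▸ hx)
    · exact absurd rfl (Finset.ne_of_mem_erase hc')
  -- the old facets
  have hold : ∀ S ∈ s.Fc, S ≠ F → ∃ m : Amb d, Nrm v (s.N + 1) S m := fun S hS hne =>
    hI _ (old_mem hS hne)
  -- v_N is nonzero
  obtain ⟨x0, hx0, _⟩ := exists_ne_mem hd (h.card F hF) s.N
  have hvN : v s.N ≠ 0 := by
    obtain ⟨S', hS'm, hsub, hxS'⟩ := h.nbr F hF x0 hx0
    have hne : S' ≠ F := by
      rintro rfl
      exact hxS' hx0
    obtain ⟨m, hm⟩ := hold S' hS'm hne
    have h1 := hm.2 s.N (Nat.lt_succ_self _) (N_notMem h hS'm)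
    intro h0
    rw [h0, map_zero] at h1
    exact lt_irrefl _ h1
  -- value of a combination under l x
  have hval : ∀ c : ℕ → ℝ, ∀ x ∈ F, bq (l x) (∑ t ∈ insert s.N F, c t • v t)
      = c x * bq (l x) (v x) := by
    intro c x hx
    rw [map_sum, Finset.sum_insert hNF, map_smul, hlN x hx, smul_zero, zero_add,
      Finset.sum_eq_single x]
    · rw [map_smul, smul_eq_mul]
    · intro t ht htx
      rw [map_smul, hl0 x hx t ht htx, smul_zero]
    · intro hc
      exact absurd hx hc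
  have hli : ∀ c : ℕ → ℝ, ∑ t ∈ insert s.N F, c t • v t = 0 → ∀ t ∈ insert s.N F, c t = 0 := by
    intro c hc
    have hcF : ∀ x ∈ F, c x = 0 := by
      intro x hx
      have h1 := hval c x hx
      rw [hc, map_zero] at h1
      exact (mul_eq_zero.mp h1.symm).resolve_right (hlx x hx).ne'
    intro t ht
    rcases Finset.mem_insert.mp ht with rfl | ht'
    · rw [Finset.sum_insert hNF, Finset.sum_eq_zero (fun t ht => by rw [hcF t ht, zero_smul]),
        add_zero] at hc
      exact (smul_eq_zero.mp hc).resolve_right hvN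
    · exact hcF t ht'
  obtain ⟨lam, hlam1, hlam2, hlam3⟩ := exists_dual v (insert s.N F)
    (by rw [Finset.card_insert_of_notMem hNF, h.card F hF]) hli (Finset.mem_insert_self _ _)
  obtain ⟨n, hn⟩ := exists_bq lam
  have hnF : Nrm v s.N F n := by
    constructor
    · intro t ht
      rw [hn]
      refine hlam2 t (Finset.mem_insert_of_mem ht) ?_
      rintro rfl
      exact hNF ht
    · intro t ht htF
      rw [hn]
      obtain ⟨c, hc, hlc⟩ := hlam3 (v t)
      rw [hlc]
      have hcpos : ∀ x ∈ F, 0 < c x := by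
        intro x hx
        have h1 : 0 < bq (l x) (v t) := by
          refine (hl x hx).2 t (Nat.lt_succ_of_lt ht) ?_
          intro hcc
          rcases Finset.mem_insert.mp hcc with hc' | hc'
          · omega
          · exact htF (Finset.mem_of_mem_erase hc')
        rw [hc, hval c x hx] at h1
        exact (mul_pos_iff_of_pos_right (hlx x hx)).mp h1
      by_contra hcon
      have hcN : 0 ≤ c s.N := by linarith
      obtain ⟨S', hS', htS'⟩ := h.mem t ht
      have hne : S' ≠ F := by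
        rintro rfl
        exact htF htS'
      obtain ⟨m, hm⟩ := hold S' hS' hne
      have hm0 : ∀ r < s.N + 1, 0 ≤ bq m (v r) := by
        intro r hr
        by_cases hrS : r ∈ S'
        · rw [hm.1 r hrS]
        · exact (hm.2 r hr hrS).le
      have h1 := hm.1 t htS'
      rw [hc, map_sum, Finset.sum_insert hNF] at h1
      have h2 : 0 ≤ bq m (c s.N • v s.N) := by
        rw [map_smul, smul_eq_mul]
        exact mul_nonneg hcN (hm0 _ (Nat.lt_succ_self _))
      have h3 : ∀ r ∈ F, 0 ≤ bq m (c r • v r) := by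
        intro r hr
        rw [map_smul, smul_eq_mul]
        exact mul_nonneg (hcpos r hr).le (hm0 r (Nat.lt_succ_of_lt (h.lt F hF r hr)))
      have h4 : ∑ r ∈ F, bq m (c r • v r) = 0 := by
        have := Finset.sum_nonneg h3
        linarith
      have h5 := (Finset.sum_eq_zero_iff_of_nonneg h3).mp h4
      have hsub : F ⊆ S' := by
        intro r hr
        by_contra hrS
        have h6 := h5 r hr
        rw [map_smul, smul_eq_mul] at h6
        have h7 := hm.2 r (Nat.lt_succ_of_lt (h.lt F hF r hr)) hrS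
        have := mul_pos (hcpos r hr) h7
        linarith
      exact hne (Finset.eq_of_subset_of_card_le hsub (by rw [h.card F hF, h.card S' hS'])).symm
  refine ⟨?_, n, hnF, ?_⟩
  · intro S hS
    by_cases hSF : S = F
    · subst hSF
      exact ⟨n, hnF⟩
    · obtain ⟨m, hm⟩ := hold S hS hSF
      exact ⟨m, hm.1, fun t ht htS => hm.2 t (Nat.lt_succ_of_lt ht) htS⟩
  · rw [hn, hlam1]
    norm_num

namespace COMBx

theorem fold_spec (hd : 2 ≤ d) : ∀ (L : List (Finset ℕ)) (s : St), Good d s → L.Nodup →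
    (∀ F ∈ L, F ∈ s.Fc) →
    Good d (L.foldl St.stk s) ∧ s.N ≤ (L.foldl St.stk s).N ∧
      (∀ T, Sub s T → Sub (L.foldl St.stk s) T) ∧
      (∀ v : ℕ → Amb d, Inc v (L.foldl St.stk s) → Inc v s) ∧
      (∀ S ∈ s.Fc, S ∉ L → S ∈ (L.foldl St.stk s).Fc) ∧
      ∀ F ∈ L, ∃ a, s.N ≤ a ∧ a < (L.foldl St.stk s).N ∧
        (∀ x ∈ F, insert a (F.erase x) ∈ (L.foldl St.stk s).Fc) ∧
        ∀ v : ℕ → Amb d, Inc v (L.foldl St.stk s) → ∃ n, Nrm v s.N F n ∧ bq n (v a) < 0 := by
  intro L
  induction L with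
  | nil =>
    intro s hs _ _
    exact ⟨hs, le_rfl, fun _ hT => hT, fun _ hv => hv, fun _ hS _ => hS,
      fun F hF => absurd hF List.not_mem_nil⟩
  | cons F L ih =>
    intro s hs hnd hmem
    have hF : F ∈ s.Fc := hmem F List.mem_cons_self
    have hFL : F ∉ L := (List.nodup_cons.mp hnd).1
    have hLmem : ∀ F' ∈ L, F' ∈ s.Fc := fun F' h' => hmem F' (List.mem_cons_of_mem _ h')
    obtain ⟨i1, i2, i3, i4, i5, i6⟩ := ih (s.stk F) (good_stk hd hs hF)
      (List.nodup_cons.mp hnd).2 (fun F' h' => old_mem (hLmem F' h') (fun e => hFL (e ▸ h')))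
    rw [List.foldl_cons]
    have hN1 : (s.stk F).N = s.N + 1 := rfl
    refine ⟨i1, by omega, fun T hT => i3 T (sub_stk hs hF hT),
      fun v hv => (unstack hd hs hF (i4 v hv)).1, ?_, ?_⟩
    · intro S hS hSL
      exact i5 S (old_mem hS (fun e => hSL (e ▸ List.mem_cons_self)))
        (fun h' => hSL (List.mem_cons_of_mem _ h'))
    · intro F' hF'
      rcases List.mem_cons.mp hF' with rfl | hF''
      · refine ⟨s.N, le_rfl, by omega, ?_, ?_⟩
        · intro x hx
          refine i5 _ (new_mem hx) ?_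
          intro hc
          exact N_notMem hs (hLmem _ hc) (Finset.mem_insert_self _ _)
        · intro v hv
          exact (unstack hd hs hF (i4 v hv)).2
      · obtain ⟨a, ha1, ha2, ha3, ha4⟩ := i6 F' hF''
        refine ⟨a, by omega, ha2, ha3, ?_⟩
        intro v hv
        obtain ⟨n, hn, hna⟩ := ha4 v hv
        exact ⟨n, ⟨hn.1, fun t ht htF => hn.2 t (by omega) htF⟩, hna⟩

end COMBx

theorem round_spec {s : St} (hd : 2 ≤ d) (h : Good d s) :
    Good d s.round ∧ s.N ≤ s.round.N ∧ (∀ T, Sub s T → Sub s.round T) ∧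
      (∀ v : ℕ → Amb d, Inc v s.round → Inc v s) ∧
      ∀ F ∈ s.Fc, ∃ a, s.N ≤ a ∧ a < s.round.N ∧ (∀ x ∈ F, insert a (F.erase x) ∈ s.round.Fc) ∧
        ∀ v : ℕ → Amb d, Inc v s.round → ∃ n, Nrm v s.N F n ∧ bq n (v a) < 0 := by
  obtain ⟨h1, h2, h3, h4, _, h6⟩ := fold_spec hd s.Fc.toList s h s.Fc.nodup_toList
    (fun F hF => Finset.mem_toList.mp hF)
  exact ⟨h1, h2, h3, h4, fun F hF => h6 F (Finset.mem_toList.mpr hF)⟩

end Pool.Agent.H95.Stk
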