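import Pool.Graph.R_pool_sql_team_seeded_620a6dc7.Helper101_Scrib.Realize

/-!
# Definitions for the `(i, j)`-scribability of stacked polytopes (MP_55faa6_co)
-/

namespace Pool.Agent.H95.Stk

open Pool.Agent.Helper101_Scrib (Amb conicHull IsFace linDim SameType IsPolytopeCone)

variable {d : ℕ}

/-- The Lorentz form. -/
noncomputable def bq : Amb d →ₗ[ℝ] Amb d →ₗ[ℝ] ℝ :=
  LinearMap.mk₂ ℝ (fun x y => -(x 0 * y 0) + ∑ i : Fin d, x i.succ * y i.succ)
    (by
      intro x x' y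
      simp only [Pi.add_apply, add_mul, Finset.sum_add_distrib]
      ring)
    (by
      intro c x y
      simp only [Pi.smul_apply, smul_eq_mul, mul_add, Finset.mul_sum]
      congr 1
      · ring
      · exact Finset.sum_congr rfl fun i _ => by ring)
    (by
      intro x y y'
      simp only [Pi.add_apply, mul_add, Finset.sum_add_distrib]
      ring)
    (by
      intro c x y
      simp only [Pi.smul_apply, smul_eq_mul, mul_add, Finset.mul_sum]
      congr 1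
      · ring
      · exact Finset.sum_congr rfl fun i _ => by ring)

theorem bq_apply (x y : Amb d) :
    bq x y = -(x 0 * y 0) + ∑ i : Fin d, x i.succ * y i.succ := rfl

theorem bq_comm (x y : Amb d) : bq x y = bq y x := by
  rw [bq_apply, bq_apply, mul_comm (x 0)]
  congr 1
  exact Finset.sum_congr rfl fun i _ => mul_comm _ _

theorem bq_self (x : Amb d) : bq x x = -(x 0 ^ 2) + ∑ i : Fin d, x i.succ ^ 2 := by
  rw [bq_apply]
  simp only [sq]

/-- The solid light cone: `q x ≤ 0` and `0 ≤ x 0`. -/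
def Bc (d : ℕ) : Set (Amb d) := {x | -(x 0 ^ 2) + ∑ i : Fin d, x i.succ ^ 2 ≤ 0 ∧ 0 ≤ x 0}

/-- A facet of the cone `K` (a `(d-1)`-face of the polytope). -/
def IsFacet (K F : Set (Amb d)) : Prop := IsFace K F ∧ linDim F = d

/-- A cone over a `d`-simplex. -/
def IsSimplexCone (d : ℕ) (K : Set (Amb d)) : Prop :=
  ∃ s : Finset (Amb d), s.card = d + 1 ∧ Submodule.span ℝ (s : Set (Amb d)) = ⊤ ∧ K = conicHull s

/-- One stacking step: a new vertex `w` beyond exactly one facet `F`. -/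
def StackStep (K K' : Set (Amb d)) : Prop :=
  ∃ (F : Set (Amb d)) (w : Amb d), IsFacet K F ∧
    (∃ l : Amb d →ₗ[ℝ] ℝ, (∀ x ∈ K, 0 ≤ l x) ∧ F = {x | x ∈ K ∧ l x = 0} ∧ l w < 0) ∧
    (∀ F', IsFacet K F' → F' ≠ F →
      ∃ l : Amb d →ₗ[ℝ] ℝ, (∀ x ∈ K, 0 ≤ l x) ∧ F' = {x | x ∈ K ∧ l x = 0} ∧ 0 < l w) ∧
    K' = {x | ∃ y ∈ K, ∃ c : ℝ, 0 ≤ c ∧ x = y + c • w}

/-- The stacked polytopes (as cones). -/
def IsStacked (d : ℕ) (K : Set (Amb d)) : Prop :=
  ∃ K₀ : Set (Amb d), IsSimplexCone d K₀ ∧ Relation.ReflTransGen StackStep K₀ K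

/-- The face `F` strongly cuts the sphere. -/
def StronglyCuts (F : Set (Amb d)) : Prop := ∃ x ∈ intrinsicInterior ℝ F, x ∈ Bc d ∧ x ≠ 0

/-- The face `F` of `K` strongly avoids the sphere. -/
def StronglyAvoids (K F : Set (Amb d)) : Prop :=
  ∃ l : Amb d →ₗ[ℝ] ℝ, l ≠ 0 ∧ (∀ x ∈ K, 0 ≤ l x) ∧ F = {x | x ∈ K ∧ l x = 0} ∧
    ∀ x ∈ Bc d, 0 ≤ l x

/-- The realization `K` is `(i, j)`-scribed. -/
def Scribed (i j : ℕ) (K : Set (Amb d)) : Prop :=
  (∀ F, IsFace K F → linDim F = i + 1 → StronglyAvoids K F) ∧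
    (∀ F, IsFace K F → linDim F = j + 1 → StronglyCuts F)

/-! ### Combinatorial stacking -/

/-- A combinatorial state: the vertices are `0, ..., N - 1`, the facets are the members of `Fc`. -/
structure St where
  /-- number of vertices -/
  N : ℕ
  /-- facets -/
  Fc : Finset (Finset ℕ)

/-- The simplex. -/
def St.init (d : ℕ) : St :=
  ⟨d + 1, (Finset.range (d + 1)).image fun x => (Finset.range (d + 1)).erase x⟩

/-- Stack a new vertex, named `N`, on the facet `F`. -/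
def St.stk (s : St) (F : Finset ℕ) : St :=
  ⟨s.N + 1, s.Fc.erase F ∪ F.image fun x => insert s.N (F.erase x)⟩

/-- Stack on all facets, one after the other. -/
noncomputable def St.round (s : St) : St := s.Fc.toList.foldl St.stk s

/-- Combinatorial invariants. -/
structure Good (d : ℕ) (s : St) : Prop where
  card : ∀ S ∈ s.Fc, S.card = d
  lt : ∀ S ∈ s.Fc, ∀ t ∈ S, t < s.N
  mem : ∀ t < s.N, ∃ S ∈ s.Fc, t ∈ S
  nbr : ∀ S ∈ s.Fc, ∀ x ∈ S, ∃ S' ∈ s.Fc, S.erase x ⊆ S' ∧ x ∉ S'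

/-- `T` is a proper subset of a facet. -/
def Sub (s : St) (T : Finset ℕ) : Prop := ∃ S ∈ s.Fc, T ⊂ S

/-- `n` is an inner normal vector for the face `T` of the polytope with vertices `v 0, ..., v (N-1)`. -/
def Nrm (v : ℕ → Amb d) (N : ℕ) (T : Finset ℕ) (n : Amb d) : Prop :=
  (∀ t ∈ T, bq n (v t) = 0) ∧ ∀ t < N, t ∉ T → 0 < bq n (v t)

/-- The vectors `v t` realize the state `s`. -/
def Inc (v : ℕ → Amb d) (s : St) : Prop := ∀ S ∈ s.Fc, ∃ n : Amb d, Nrm v s.N S n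

/-- Geometric realization of a state by the cone `K`, with the inner normals `n`. -/
structure Geo (s : St) (K : Set (Amb d)) (v : ℕ → Amb d) (n : Finset ℕ → Amb d) : Prop where
  nrm : ∀ S ∈ s.Fc, Nrm v s.N S (n S)
  hull : K = conicHull ((Finset.range s.N).image v)
  half : ∀ x, x ∈ K ↔ ∀ S ∈ s.Fc, 0 ≤ bq (n S) x

/-! ### The pile condition -/

/-- The angle of two spacelike vectors. -/
noncomputable def ang (n m : Amb d) : ℝ := Real.arccos (bq n m / (√(bq n n) * √(bq m m)))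

/-- The vertex `a` is stacked on the facet `F` with inner normal `n`; the new facets
`(F \ x) ∪ a` have inner normals `m x`. -/
structure Cnd (d : ℕ) (v : ℕ → Amb d) (N : ℕ) (P : Finset ℕ → Prop) (F : Finset ℕ) (n : Amb d)
    (a : ℕ) (m : ℕ → Amb d) : Prop where
  card : F.card = d
  lt : ∀ t ∈ F, t < N
  alt : a < N
  ha : a ∉ F
  hn : ∀ t ∈ F, bq n (v t) = 0
  hna : bq n (v a) < 0
  hm : ∀ x ∈ F, ∀ t ∈ insert a (F.erase x), bq (m x) (v t) = 0
  hmx : ∀ x ∈ F, 0 < bq (m x) (v x)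
  hP : ∀ T, T ⊂ F → P T
  hP' : ∀ x ∈ F, ∀ T, T ⊂ insert a (F.erase x) → P T

/-- `F` carries a full pile of depth `k`. -/
def Pl (d : ℕ) (v : ℕ → Amb d) (N : ℕ) (P : Finset ℕ → Prop) : ℕ → Finset ℕ → Amb d → Prop
  | 0, F, n => ∃ a m, Cnd d v N P F n a m
  | k + 1, F, n => ∃ a m, Cnd d v N P F n a m ∧
      ∀ x ∈ F, Pl d v N P k (insert a (F.erase x)) (m x)

end Pool.Agent.H95.Stk
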