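import Pool.Agent.H95.Stk.Defs

set_option autoImplicit false

/-!
Geometric existence of stacked cones.
-/

namespace Pool.Agent.H95.Stk

open Pool.Agent.Helper101_Scrib (Amb conicHull IsFace linDim SameType IsPolytopeCone)

variable {d : ℕ}

namespace GEOx

open Pool.Agent.Helper101_Scrib (subset_conicHull conicHull_nonneg zero_mem_conicHull
  add_mem_conicHull smul_mem_conicHull sum_mem_conicHull conicHull_subset face_repr)

/-! ### The form -/

/-- the dual vectors -/
noncomputable def en (x : Fin (d + 1)) : Amb d :=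
  if x = 0 then -Pi.single x 1 else Pi.single x 1

theorem bq_en (x : Fin (d + 1)) (y : Amb d) : bq (en x) y = y x := by
  refine Fin.cases ?_ (fun k => ?_) x
  · simp [en, bq_apply, Fin.succ_ne_zero]
  · simp [en, bq_apply, Pi.single_apply, Fin.succ_ne_zero, (Fin.succ_ne_zero _).symm]

theorem exists_neg {n : Amb d} (hn : n ≠ 0) : ∃ u, bq n u < 0 := by
  obtain ⟨x, hx⟩ : ∃ x, n x ≠ 0 := by
    by_contra hcon
    push Not at hcon
    exact hn (funext hcon)
  refine ⟨-(n x) • en x, ?_⟩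
  rw [map_smul, bq_comm, bq_en, smul_eq_mul]
  nlinarith [mul_self_pos.2 hx]

theorem bq_ne {n : Amb d} (hn : n ≠ 0) : (bq n : Amb d →ₗ[ℝ] ℝ) ≠ 0 := by
  obtain ⟨u, hu⟩ := exists_neg hn
  intro h
  rw [h, LinearMap.zero_apply] at hu
  exact lt_irrefl _ hu

theorem finrank_ker {n : Amb d} (hn : n ≠ 0) :
    Module.finrank ℝ (LinearMap.ker (bq n : Amb d →ₗ[ℝ] ℝ)) = d := by
  have h1 := Module.Dual.finrank_ker_add_one_of_ne_zero (f := (bq n : Amb d →ₗ[ℝ] ℝ)) (bq_ne hn)
  rw [Module.finrank_fin_fun] at h1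
  omega

theorem exists_small {ι : Type} (T : Finset ι) (a b : ι → ℝ) (h : ∀ i ∈ T, 0 < a i) :
    ∃ ε : ℝ, 0 < ε ∧ ∀ i ∈ T, 0 < a i + ε * b i := by
  have h1 : ∀ᶠ ε : ℝ in nhdsWithin 0 (Set.Ioi 0), ∀ i ∈ T, 0 < a i + ε * b i := by
    refine (Finset.eventually_all T).2 fun i hi => ?_
    have h2 : Filter.Tendsto (fun ε : ℝ => a i + ε * b i) (nhds 0) (nhds (a i + 0 * b i)) :=
      (continuous_const.add (continuous_id.mul continuous_const)).tendsto 0
    rw [zero_mul, add_zero] at h2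
    exact (h2.eventually (lt_mem_nhds (h i hi))).filter_mono nhdsWithin_le_nhds
  obtain ⟨ε, h2, h3⟩ := (h1.and self_mem_nhdsWithin).exists
  exact ⟨ε, h3, h2⟩

/-! ### Consequences of a realization -/

section geo

variable {s : St} {K : Set (Amb d)} {v : ℕ → Amb d} {n : Finset ℕ → Amb d}

theorem exists_out (h : Good d s) {S T : Finset ℕ} (hS : S ∈ s.Fc) (hT : T ∈ s.Fc)
    (hST : S ≠ T) : ∃ t ∈ S, t ∉ T := by
  by_contra hcon
  push Not at hcon
  exact hST (Finset.eq_of_subset_of_card_le hcon (by rw [h.card S hS, h.card T hT]))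

theorem exists_nbr (h : Good d s) {S : Finset ℕ} (hS : S ∈ s.Fc) (hd : 1 ≤ d) :
    ∃ t, t < s.N ∧ t ∉ S := by
  have h1 : S.Nonempty := by
    rw [← Finset.card_pos, h.card S hS]
    omega
  obtain ⟨x, hx⟩ := h1
  obtain ⟨S', hS', -, hx'⟩ := h.nbr S hS x hx
  obtain ⟨t, ht, ht'⟩ := exists_out h hS' hS (by
    rintro rfl
    exact hx' hx)
  exact ⟨t, h.lt S' hS' t ht, ht'⟩

theorem n_ne (h : Good d s) (hg : Geo s K v n) {S : Finset ℕ} (hS : S ∈ s.Fc) (hd : 1 ≤ d) :
    n S ≠ 0 := by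
  obtain ⟨t, ht, ht'⟩ := exists_nbr h hS hd
  have h1 := (hg.nrm S hS).2 t ht ht'
  intro h2
  rw [h2, map_zero, LinearMap.zero_apply] at h1
  exact lt_irrefl _ h1

theorem n_nonneg (hg : Geo s K v n) {S : Finset ℕ} (hS : S ∈ s.Fc) {t : ℕ} (ht : t < s.N) :
    0 ≤ bq (n S) (v t) := by
  by_cases h1 : t ∈ S
  · exact ((hg.nrm S hS).1 t h1).ge
  · exact ((hg.nrm S hS).2 t ht h1).le

theorem v_mem (hg : Geo s K v n) {t : ℕ} (ht : t < s.N) : v t ∈ K :=
  (hg.half _).2 fun _ hS => n_nonneg hg hS ht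

theorem K_add (hg : Geo s K v n) {x y : Amb d} (hx : x ∈ K) (hy : y ∈ K) : x + y ∈ K := by
  rw [hg.hull] at hx hy ⊢
  exact add_mem_conicHull hx hy

theorem K_smul (hg : Geo s K v n) {x : Amb d} {a : ℝ} (ha : 0 ≤ a) (hx : x ∈ K) : a • x ∈ K := by
  rw [hg.hull] at hx ⊢
  exact smul_mem_conicHull ha hx

theorem K_zero (hg : Geo s K v n) : (0 : Amb d) ∈ K := by
  rw [hg.hull]
  exact zero_mem_conicHull _

theorem K_sum (hg : Geo s K v n) (T : Finset ℕ) (f : ℕ → Amb d) (h : ∀ t ∈ T, f t ∈ K) :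
    ∑ t ∈ T, f t ∈ K := by
  rw [hg.hull] at h ⊢
  exact sum_mem_conicHull T f h

theorem indep (h : Good d s) (hg : Geo s K v n) {S : Finset ℕ} (hS : S ∈ s.Fc) {c : ℕ → ℝ}
    (hc : ∑ t ∈ S, c t • v t = 0) : ∀ t ∈ S, c t = 0 := by
  classical
  intro x hx
  obtain ⟨S', hS', hsub, hx'⟩ := h.nbr S hS x hx
  have h1 : bq (n S') (∑ t ∈ S, c t • v t) = c x * bq (n S') (v x) := by
    rw [map_sum, ← Finset.add_sum_erase _ _ hx, map_smul, smul_eq_mul]
    rw [Finset.sum_eq_zero, add_zero]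
    intro t ht
    rw [map_smul, (hg.nrm S' hS').1 t (hsub ht), smul_zero]
  rw [hc, map_zero] at h1
  have h2 := (hg.nrm S' hS').2 x (h.lt S hS x hx) hx'
  exact (mul_eq_zero.1 h1.symm).resolve_right h2.ne'

/-- the kernel of a facet normal is spanned by the vertices of the facet -/
theorem ker_eq (h : Good d s) (hg : Geo s K v n) {S : Finset ℕ} (hS : S ∈ s.Fc) (hd : 1 ≤ d) :
    Submodule.span ℝ (v '' (S : Set ℕ)) = LinearMap.ker (bq (n S) : Amb d →ₗ[ℝ] ℝ) := by
  classical
  apply Submodule.eq_of_le_of_finrank_eq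
  · rw [Submodule.span_le]
    rintro _ ⟨t, ht, rfl⟩
    exact (hg.nrm S hS).1 t ht
  · rw [finrank_ker (n_ne h hg hS hd)]
    have hli : LinearIndependent ℝ (fun t : (S : Set ℕ) => v t) := by
      rw [Fintype.linearIndependent_iff]
      intro g hgs i
      have h1 : ∑ t ∈ S, (if ht : t ∈ (S : Set ℕ) then g ⟨t, ht⟩ else 0) • v t = 0 := by
        rw [← hgs, ← Finset.sum_coe_sort]
        refine Finset.sum_congr rfl fun t _ => ?_
        rw [dif_pos (show (t : ℕ) ∈ (S : Set ℕ) from t.2)]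
        rfl
      have h2 := indep h hg hS h1 i i.2
      rw [dif_pos i.2] at h2
      exact h2
    have h3 := finrank_span_eq_card hli
    rw [Set.image_eq_range]
    rw [h3]
    simp [h.card S hS]

theorem ker_repr (h : Good d s) (hg : Geo s K v n) {S : Finset ℕ} (hS : S ∈ s.Fc) (hd : 1 ≤ d)
    {y : Amb d} (hy : bq (n S) y = 0) : ∃ c : ℕ → ℝ, y = ∑ t ∈ S, c t • v t := by
  classical
  have h1 : y ∈ Submodule.span ℝ (v '' (S : Set ℕ)) := by
    rw [ker_eq h hg hS hd]
    exact hy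
  rw [Submodule.mem_span_image_finset_iff_exists_fun'] at h1
  obtain ⟨c, hc⟩ := h1
  exact ⟨c, hc.symm⟩

/-- the facet of a facet normal -/
theorem span_facet (h : Good d s) (hg : Geo s K v n) {S : Finset ℕ} (hS : S ∈ s.Fc) (hd : 1 ≤ d) :
    Submodule.span ℝ {x | x ∈ K ∧ bq (n S) x = 0} =
      LinearMap.ker (bq (n S) : Amb d →ₗ[ℝ] ℝ) := by
  apply le_antisymm
  · rw [Submodule.span_le]
    intro x hx
    exact hx.2
  · rw [← ker_eq h hg hS hd]
    apply Submodule.span_mono
    rintro _ ⟨t, ht, rfl⟩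
    exact ⟨v_mem hg (h.lt S hS t ht), (hg.nrm S hS).1 t ht⟩

theorem linDim_facet (h : Good d s) (hg : Geo s K v n) {S : Finset ℕ} (hS : S ∈ s.Fc)
    (hd : 1 ≤ d) : linDim {x | x ∈ K ∧ bq (n S) x = 0} = d := by
  unfold linDim
  rw [span_facet h hg hS hd, finrank_ker (n_ne h hg hS hd)]

theorem span_top (h : Good d s) (hg : Geo s K v n) {S : Finset ℕ} (hS : S ∈ s.Fc) (hd : 1 ≤ d) :
    Submodule.span ℝ K = ⊤ := by
  have h1 : LinearMap.ker (bq (n S) : Amb d →ₗ[ℝ] ℝ) ≤ Submodule.span ℝ K := by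
    rw [← span_facet h hg hS hd]
    exact Submodule.span_mono fun x hx => hx.1
  obtain ⟨t, ht, ht'⟩ := exists_nbr h hS hd
  have ha := (hg.nrm S hS).2 t ht ht'
  rw [eq_top_iff]
  intro x _
  have h2 : x - (bq (n S) x / bq (n S) (v t)) • v t ∈ Submodule.span ℝ K := by
    apply h1
    rw [LinearMap.mem_ker, map_sub, map_smul, smul_eq_mul, div_mul_cancel₀ _ ha.ne', sub_self]
  have h3 : (bq (n S) x / bq (n S) (v t)) • v t ∈ Submodule.span ℝ K :=
    Submodule.smul_mem _ _ (Submodule.subset_span (v_mem hg ht))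
  have h4 := Submodule.add_mem _ h2 h3
  rwa [sub_add_cancel] at h4

/-- the facets of the cone are given by the facet normals -/
theorem facet_normal (h : Good d s) (hg : Geo s K v n) (hne : s.Fc.Nonempty) (hd : 1 ≤ d)
    {F' : Set (Amb d)} (hF' : IsFacet K F') :
    ∃ S ∈ s.Fc, F' = {x | x ∈ K ∧ bq (n S) x = 0} := by
  classical
  obtain ⟨⟨l, hl, rfl⟩, hdim⟩ := hF'
  set T : Finset ℕ := (Finset.range s.N).filter fun t => l (v t) = 0 with hT
  have hTm : ∀ t, t ∈ T ↔ t < s.N ∧ l (v t) = 0 := by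
    intro t
    rw [hT, Finset.mem_filter, Finset.mem_range]
  set p : Amb d := ∑ t ∈ T, v t with hp
  have hpK : p ∈ K := K_sum hg T _ fun t ht => v_mem hg ((hTm t).1 ht).1
  have hlp : l p = 0 := by
    rw [hp, map_sum]
    exact Finset.sum_eq_zero fun t ht => ((hTm t).1 ht).2
  obtain ⟨S, hS, hSp⟩ : ∃ S ∈ s.Fc, bq (n S) p = 0 := by
    by_contra hcon
    push Not at hcon
    have hpos : ∀ S ∈ s.Fc, 0 < bq (n S) p := fun S hS =>
      lt_of_le_of_ne ((hg.half p).1 hpK S hS) (hcon S hS).symm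
    have hlz : l = 0 := by
      have key : ∀ z, l z ≤ 0 := by
        intro z
        obtain ⟨ε, hε, h1⟩ := exists_small s.Fc (fun S => bq (n S) p) (fun S => bq (n S) (-z)) hpos
        have h2 : p + ε • (-z) ∈ K := by
          rw [hg.half]
          intro S hS
          rw [map_add, map_smul, smul_eq_mul]
          exact (h1 S hS).le
        have h3 := hl _ h2
        rw [map_add, map_smul, hlp, zero_add, smul_eq_mul, map_neg] at h3
        nlinarith
      ext z
      have h1 := key (Pi.single z 1)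
      have h2 := key (-Pi.single z 1)
      rw [map_neg] at h2
      simp only [LinearMap.comp_apply, LinearMap.zero_apply, LinearMap.coe_single]
      linarith
    have h1 : {x | x ∈ K ∧ l x = 0} = K := by
      ext x
      simp [hlz]
    rw [h1] at hdim
    obtain ⟨S, hS⟩ := hne
    unfold linDim at hdim
    rw [span_top h hg hS hd, finrank_top, Module.finrank_fin_fun] at hdim
    omega
  have hSv : ∀ t ∈ T, bq (n S) (v t) = 0 := by
    rw [hp, map_sum, Finset.sum_eq_zero_iff_of_nonneg] at hSp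
    · exact hSp
    · exact fun t ht => n_nonneg hg hS ((hTm t).1 ht).1
  have hsub : ∀ x, x ∈ K → l x = 0 → bq (n S) x = 0 := by
    intro x hx hx0
    rw [hg.hull] at hx
    obtain ⟨c, -, hc, hxe⟩ := face_repr (l := l) (by
      intro u hu
      obtain ⟨t, ht, rfl⟩ := Finset.mem_image.1 hu
      exact hl _ (v_mem hg (Finset.mem_range.1 ht))) hx hx0
    rw [hxe, map_sum]
    refine Finset.sum_eq_zero fun u hu => ?_
    obtain ⟨t, ht, rfl⟩ := Finset.mem_image.1 hu
    rw [map_smul, smul_eq_mul]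
    by_cases h0 : l (v t) = 0
    · rw [hSv t ((hTm t).2 ⟨Finset.mem_range.1 ht, h0⟩), mul_zero]
    · rw [hc _ hu h0, zero_mul]
  refine ⟨S, hS, ?_⟩
  have hspan : Submodule.span ℝ {x | x ∈ K ∧ l x = 0} =
      LinearMap.ker (bq (n S) : Amb d →ₗ[ℝ] ℝ) := by
    apply Submodule.eq_of_le_of_finrank_eq
    · rw [Submodule.span_le]
      intro x hx
      exact hsub x hx.1 hx.2
    · rw [finrank_ker (n_ne h hg hS hd)]
      exact hdim
  have hle : Submodule.span ℝ {x | x ∈ K ∧ l x = 0} ≤ LinearMap.ker l := by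
    rw [Submodule.span_le]
    intro x hx
    exact hx.2
  ext x
  constructor
  · intro hx
    exact ⟨hx.1, hsub x hx.1 hx.2⟩
  · intro hx
    refine ⟨hx.1, ?_⟩
    have h1 : x ∈ LinearMap.ker (bq (n S) : Amb d →ₗ[ℝ] ℝ) := hx.2
    rw [← hspan] at h1
    exact hle h1

end geo

/-! ### The simplex -/

/-- the standard basis -/
noncomputable def sv (d : ℕ) (t : ℕ) : Amb d := if h : t < d + 1 then Pi.single ⟨t, h⟩ 1 else 0

theorem sv_fin (x : Fin (d + 1)) : sv d x = Pi.single x 1 := by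
  unfold sv
  rw [dif_pos x.2]

/-- the normals of the simplex cone -/
noncomputable def sn (d : ℕ) (S : Finset ℕ) : Amb d :=
  ∑ x ∈ Finset.univ.filter (fun x : Fin (d + 1) => (x : ℕ) ∉ S), en x

theorem sn_erase (x : Fin (d + 1)) : sn d ((Finset.range (d + 1)).erase x) = en x := by
  unfold sn
  have h1 : Finset.univ.filter (fun y : Fin (d + 1) =>
      (y : ℕ) ∉ (Finset.range (d + 1)).erase x) = {x} := by
    ext y
    rw [Finset.mem_filter, Finset.mem_singleton, Finset.mem_erase, Finset.mem_range]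
    constructor
    · rintro ⟨-, h2⟩
      by_contra h3
      exact h2 ⟨fun h4 => h3 (Fin.ext h4), y.2⟩
    · rintro rfl
      exact ⟨Finset.mem_univ _, fun h2 => h2.1 rfl⟩
  rw [h1, Finset.sum_singleton]

theorem sum_sv (x : Amb d) : x = ∑ i : Fin (d + 1), x i • sv d i := by
  funext j
  rw [Finset.sum_apply]
  simp only [sv_fin, Pi.smul_apply, Pi.single_apply, smul_eq_mul, mul_ite, mul_one, mul_zero]
  rw [Finset.sum_ite_eq]
  simp

theorem sv_inj : Set.InjOn (sv d) (Finset.range (d + 1) : Finset ℕ) := by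
  intro t ht t' ht' h
  rw [Finset.coe_range, Set.mem_Iio] at ht ht'
  have h1 := congrFun h ⟨t, ht⟩
  unfold sv at h1
  rw [dif_pos ht, dif_pos ht', Pi.single_eq_same, Pi.single_apply] at h1
  by_contra hne
  rw [if_neg] at h1
  · exact one_ne_zero h1
  · intro h2
    exact hne (Fin.mk.inj h2)

theorem half_sv (x : Amb d) : x ∈ conicHull ((Finset.range (d + 1)).image (sv d)) ↔
    ∀ i : Fin (d + 1), 0 ≤ x i := by
  constructor
  · intro hx i
    refine conicHull_nonneg (l := LinearMap.proj i) ?_ hx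
    intro u hu
    obtain ⟨t, ht, rfl⟩ := Finset.mem_image.1 hu
    show 0 ≤ sv d t i
    unfold sv
    rw [dif_pos (Finset.mem_range.1 ht), Pi.single_apply]
    split_ifs <;> norm_num
  · intro hx
    rw [sum_sv x]
    refine sum_mem_conicHull _ _ fun i _ => smul_mem_conicHull (hx i) (subset_conicHull _ ?_)
    exact Finset.mem_image_of_mem _ (Finset.mem_range.2 i.2)

end GEOx

open Pool.Agent.Helper101_Scrib (subset_conicHull conicHull_nonneg zero_mem_conicHull
  add_mem_conicHull smul_mem_conicHull sum_mem_conicHull conicHull_subset face_repr)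

theorem geo_cone {s : St} {K : Set (Amb d)} {v : ℕ → Amb d} {n : Finset ℕ → Amb d}
    (hd : 2 ≤ d) (h : Good d s) (hN : 0 < s.N) (hg : Geo s K v n) : IsPolytopeCone d K := by
  classical
  have hd1 : 1 ≤ d := by omega
  refine ⟨⟨_, hg.hull⟩, ?_, ?_⟩
  · intro x hx hx'
    have h0 : ∀ S ∈ s.Fc, bq (n S) x = 0 := by
      intro S hS
      have h1 := (hg.half x).1 hx S hS
      have h2 := (hg.half (-x)).1 hx' S hS
      rw [map_neg] at h2
      linarith
    rw [hg.hull] at hx
    obtain ⟨c, hc, hxe⟩ := hx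
    rw [hxe]
    refine Finset.sum_eq_zero fun u hu => ?_
    obtain ⟨t, ht, rfl⟩ := Finset.mem_image.1 hu
    obtain ⟨S0, hS0, ht0⟩ := h.mem t (Finset.mem_range.1 ht)
    obtain ⟨S, hS, -, htS⟩ := h.nbr S0 hS0 t ht0
    have h1 := h0 S hS
    rw [hxe, map_sum, Finset.sum_eq_zero_iff_of_nonneg] at h1
    · have h2 := h1 _ hu
      rw [map_smul, smul_eq_mul] at h2
      have h3 := (hg.nrm S hS).2 t (Finset.mem_range.1 ht) htS
      rw [(mul_eq_zero.1 h2).resolve_right h3.ne', zero_smul]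
    · intro u hu
      obtain ⟨t, ht, rfl⟩ := Finset.mem_image.1 hu
      rw [map_smul, smul_eq_mul]
      exact mul_nonneg (hc _ hu) (GEOx.n_nonneg hg hS (Finset.mem_range.1 ht))
  · obtain ⟨S, hS, -⟩ := h.mem 0 hN
    exact GEOx.span_top h hg hS hd1

theorem geo_init (hd : 1 ≤ d) : ∃ (K : Set (Amb d)) (v : ℕ → Amb d) (n : Finset ℕ → Amb d),
    IsSimplexCone d K ∧ Geo (St.init d) K v n := by
  classical
  have hFc : ∀ S, S ∈ (St.init d).Fc → ∃ x : Fin (d + 1), S = (Finset.range (d + 1)).erase x := by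
    intro S hS
    obtain ⟨x, hx, rfl⟩ := Finset.mem_image.1 hS
    exact ⟨⟨x, Finset.mem_range.1 hx⟩, rfl⟩
  refine ⟨conicHull ((Finset.range (d + 1)).image (GEOx.sv d)), GEOx.sv d, GEOx.sn d,
    ⟨_, ?_, ?_, rfl⟩, ⟨?_, rfl, ?_⟩⟩
  · rw [Finset.card_image_of_injOn GEOx.sv_inj, Finset.card_range]
  · rw [eq_top_iff]
    intro x _
    rw [GEOx.sum_sv x]
    refine Submodule.sum_mem _ fun i _ => Submodule.smul_mem _ _ (Submodule.subset_span ?_)
    exact Finset.mem_coe.2 (Finset.mem_image_of_mem _ (Finset.mem_range.2 i.2))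
  · intro S hS
    obtain ⟨x, rfl⟩ := hFc S hS
    constructor
    · intro t ht
      rw [GEOx.sn_erase, GEOx.bq_en]
      rw [Finset.mem_erase, Finset.mem_range] at ht
      unfold GEOx.sv
      rw [dif_pos ht.2, Pi.single_apply, if_neg]
      intro h1
      exact ht.1 (by rw [h1])
    · intro t ht ht'
      rw [GEOx.sn_erase, GEOx.bq_en]
      have ht2 : t < d + 1 := ht
      rw [Finset.mem_erase, Finset.mem_range, not_and_or, not_not] at ht'
      have h1 : t = x := ht'.resolve_right fun h => h ht2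
      rw [h1, GEOx.sv_fin, Pi.single_eq_same]
      exact one_pos
  · intro x
    rw [GEOx.half_sv]
    constructor
    · intro hx S hS
      obtain ⟨y, rfl⟩ := hFc S hS
      rw [GEOx.sn_erase, GEOx.bq_en]
      exact hx y
    · intro hx i
      have h1 := hx ((Finset.range (d + 1)).erase i)
        (Finset.mem_image_of_mem _ (Finset.mem_range.2 i.2))
      rwa [GEOx.sn_erase, GEOx.bq_en] at h1

theorem geo_step {s : St} {F : Finset ℕ} {K : Set (Amb d)} {v : ℕ → Amb d} {n : Finset ℕ → Amb d}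
    (hd : 2 ≤ d) (h : Good d s) (hF : F ∈ s.Fc) (hg : Geo s K v n) :
    ∃ (K' : Set (Amb d)) (v' : ℕ → Amb d) (n' : Finset ℕ → Amb d),
      StackStep K K' ∧ Geo (s.stk F) K' v' n' := by
  classical
  have hd1 : 1 ≤ d := by omega
  obtain ⟨u, hu⟩ := GEOx.exists_neg (GEOx.n_ne h hg hF hd1)
  obtain ⟨ε, hε, hεp⟩ := GEOx.exists_small (s.Fc.erase F) (fun S => bq (n S) (∑ t ∈ F, v t))
    (fun S => bq (n S) u) (by
      intro S hS
      rw [Finset.mem_erase] at hS
      obtain ⟨t, ht, ht'⟩ := GEOx.exists_out h hF hS.2 (Ne.symm hS.1)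
      show 0 < bq (n S) (∑ t ∈ F, v t)
      rw [map_sum]
      exact Finset.sum_pos' (fun t ht => GEOx.n_nonneg hg hS.2 (h.lt F hF t ht))
        ⟨t, ht, (hg.nrm S hS.2).2 t (h.lt F hF t ht) ht'⟩)
  obtain ⟨w, hwF, hwS⟩ : ∃ w : Amb d, bq (n F) w < 0 ∧ ∀ S ∈ s.Fc, S ≠ F → 0 < bq (n S) w := by
    refine ⟨∑ t ∈ F, v t + ε • u, ?_, ?_⟩
    · rw [map_add, map_smul, map_sum, Finset.sum_eq_zero fun t ht => (hg.nrm F hF).1 t ht,
        zero_add, smul_eq_mul]
      exact mul_neg_of_pos_of_neg hε hu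
    · intro S hS hSF
      rw [map_add, map_smul, smul_eq_mul]
      exact hεp S (Finset.mem_erase.2 ⟨hSF, hS⟩)
  -- the new normals
  have hR : ∀ x ∈ F, ∃ (S' : Finset ℕ) (a : ℝ), S' ∈ s.Fc ∧ 0 < a ∧ F.erase x ⊆ S' ∧ x ∉ S' ∧
      bq (n S' + a • n F) w = 0 := by
    intro x hx
    obtain ⟨S', hS', hsub, hx'⟩ := h.nbr F hF x hx
    have h1 : S' ≠ F := by
      rintro rfl
      exact hx' hx
    have h2 := hwS S' hS' h1
    refine ⟨S', - bq (n S') w / bq (n F) w, hS', div_pos_of_neg_of_neg (by linarith) hwF, hsub,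
      hx', ?_⟩
    rw [map_add, map_smul, LinearMap.add_apply, LinearMap.smul_apply, smul_eq_mul,
      div_mul_cancel₀ _ hwF.ne]
    ring
  have hQ : ∀ S ∈ (s.stk F).Fc, ∃ m : Amb d, (S ∈ s.Fc ∧ S ≠ F ∧ m = n S) ∨
      ∃ x ∈ F, S = insert s.N (F.erase x) ∧ ∃ (S' : Finset ℕ) (a : ℝ), S' ∈ s.Fc ∧ 0 < a ∧
        F.erase x ⊆ S' ∧ x ∉ S' ∧ bq (n S' + a • n F) w = 0 ∧ m = n S' + a • n F := by
    intro S hS
    rcases Finset.mem_union.1 hS with hS | hS
    · rw [Finset.mem_erase] at hS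
      exact ⟨n S, Or.inl ⟨hS.2, hS.1, rfl⟩⟩
    · obtain ⟨x, hx, rfl⟩ := Finset.mem_image.1 hS
      obtain ⟨S', a, h1, h2, h3, h4, h5⟩ := hR x hx
      exact ⟨n S' + a • n F, Or.inr ⟨x, hx, rfl, S', a, h1, h2, h3, h4, h5, rfl⟩⟩
  choose! n' hn' using hQ
  have hold : ∀ S ∈ s.Fc, S ≠ F → n' S = n S := by
    intro S hS hSF
    rcases hn' S (Finset.mem_union_left _ (Finset.mem_erase.2 ⟨hSF, hS⟩)) with h1 | h1
    · exact h1.2.2
    · obtain ⟨x, hx, hSx, -⟩ := h1
      have h2 : s.N ∈ S := by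
        rw [hSx]
        exact Finset.mem_insert_self _ _
      exact absurd (h.lt S hS _ h2) (lt_irrefl _)
  have hnew : ∀ x ∈ F, ∃ (S' : Finset ℕ) (a : ℝ), S' ∈ s.Fc ∧ 0 < a ∧ F.erase x ⊆ S' ∧ x ∉ S' ∧
      bq (n S' + a • n F) w = 0 ∧ n' (insert s.N (F.erase x)) = n S' + a • n F := by
    intro x hx
    rcases hn' (insert s.N (F.erase x)) (Finset.mem_union_right _ (Finset.mem_image_of_mem _ hx))
      with h1 | h1
    · exact absurd (h.lt _ h1.1 s.N (Finset.mem_insert_self _ _)) (lt_irrefl _)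
    · obtain ⟨y, hy, hSy, hrest⟩ := h1
      have hxy : x = y := by
        by_contra hne
        have h2 : x ∈ insert s.N (F.erase y) :=
          Finset.mem_insert_of_mem (Finset.mem_erase.2 ⟨hne, hx⟩)
        rw [← hSy, Finset.mem_insert, Finset.mem_erase] at h2
        rcases h2 with h2 | h2
        · exact absurd (h.lt F hF x hx) (by rw [h2]; exact lt_irrefl _)
        · exact h2.1 rfl
      rw [← hxy] at hrest
      exact hrest
  -- values of the new normals
  have hm0 : ∀ x ∈ F, bq (n' (insert s.N (F.erase x))) w = 0 := by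
    intro x hx
    obtain ⟨S', a, -, -, -, -, h5, h6⟩ := hnew x hx
    rw [h6, h5]
  have hm1 : ∀ x ∈ F, ∀ t ∈ F.erase x, bq (n' (insert s.N (F.erase x))) (v t) = 0 := by
    intro x hx t ht
    obtain ⟨S', a, h1, h2, h3, h4, h5, h6⟩ := hnew x hx
    rw [h6, map_add, map_smul, LinearMap.add_apply, LinearMap.smul_apply,
      (hg.nrm S' h1).1 t (h3 ht), (hg.nrm F hF).1 t (Finset.mem_of_mem_erase ht)]
    simp
  have hm2 : ∀ x ∈ F, 0 < bq (n' (insert s.N (F.erase x))) (v x) := by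
    intro x hx
    obtain ⟨S', a, h1, h2, h3, h4, h5, h6⟩ := hnew x hx
    rw [h6, map_add, map_smul, LinearMap.add_apply, LinearMap.smul_apply,
      (hg.nrm F hF).1 x hx, smul_zero, add_zero]
    exact (hg.nrm S' h1).2 x (h.lt F hF x hx) h4
  have hm3 : ∀ x ∈ F, ∀ t < s.N, t ∉ F → 0 < bq (n' (insert s.N (F.erase x))) (v t) := by
    intro x hx t ht ht'
    obtain ⟨S', a, h1, h2, h3, h4, h5, h6⟩ := hnew x hx
    rw [h6, map_add, map_smul, LinearMap.add_apply, LinearMap.smul_apply, smul_eq_mul]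
    exact add_pos_of_nonneg_of_pos (GEOx.n_nonneg hg h1 ht) (mul_pos h2 ((hg.nrm F hF).2 t ht ht'))
  have hm4 : ∀ x ∈ F, ∀ y ∈ K, 0 ≤ bq (n' (insert s.N (F.erase x))) y := by
    intro x hx y hy
    obtain ⟨S', a, h1, h2, h3, h4, h5, h6⟩ := hnew x hx
    rw [h6, map_add, map_smul, LinearMap.add_apply, LinearMap.smul_apply, smul_eq_mul]
    exact add_nonneg ((hg.half y).1 hy S' h1) (mul_nonneg h2.le ((hg.half y).1 hy F hF))
  set v' : ℕ → Amb d := Function.update v s.N w with hv'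
  have hv1 : ∀ t, t < s.N → v' t = v t := fun t ht => Function.update_of_ne ht.ne _ _
  have hv2 : v' s.N = w := Function.update_self _ _ _
  refine ⟨{x | ∃ y ∈ K, ∃ c : ℝ, 0 ≤ c ∧ x = y + c • w}, v', n', ?_, ?_, ?_, ?_⟩
  · -- the stacking step
    refine ⟨{x | x ∈ K ∧ bq (n F) x = 0}, w, ⟨⟨bq (n F), fun x hx => (hg.half x).1 hx F hF, rfl⟩,
      GEOx.linDim_facet h hg hF hd1⟩, ⟨bq (n F), fun x hx => (hg.half x).1 hx F hF, rfl, hwF⟩,
      ?_, rfl⟩
    intro F' hF' hne
    obtain ⟨S, hS, hSe⟩ := GEOx.facet_normal h hg ⟨F, hF⟩ hd1 hF'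
    refine ⟨bq (n S), fun x hx => (hg.half x).1 hx S hS, hSe, hwS S hS ?_⟩
    rintro rfl
    exact hne hSe
  · -- normals
    intro S hS
    rcases Finset.mem_union.1 hS with hS | hS
    · rw [Finset.mem_erase] at hS
      rw [hold S hS.2 hS.1]
      constructor
      · intro t ht
        rw [hv1 t (h.lt S hS.2 t ht)]
        exact (hg.nrm S hS.2).1 t ht
      · intro t ht ht'
        rcases Nat.lt_succ_iff_lt_or_eq.1 ht with h1 | h1
        · rw [hv1 t h1]
          exact (hg.nrm S hS.2).2 t h1 ht'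
        · rw [h1, hv2]
          exact hwS S hS.2 hS.1
    · obtain ⟨x, hx, rfl⟩ := Finset.mem_image.1 hS
      constructor
      · intro t ht
        rcases Finset.mem_insert.1 ht with h1 | h1
        · rw [h1, hv2]
          exact hm0 x hx
        · rw [hv1 t (h.lt F hF t (Finset.mem_of_mem_erase h1))]
          exact hm1 x hx t h1
      · intro t ht ht'
        rw [Finset.mem_insert, not_or] at ht'
        rcases Nat.lt_succ_iff_lt_or_eq.1 ht with h1 | h1
        · rw [hv1 t h1]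
          by_cases h2 : t ∈ F
          · have h3 : t = x := by
              by_contra hne
              exact ht'.2 (Finset.mem_erase.2 ⟨hne, h2⟩)
            rw [h3]
            exact hm2 x hx
          · exact hm3 x hx t h1 h2
        · exact absurd h1 ht'.1
  · -- hull
    have himg : ((Finset.range (s.stk F).N).image v') =
        insert w ((Finset.range s.N).image v) := by
      show ((Finset.range (s.N + 1)).image v') = _
      rw [Finset.range_add_one, Finset.image_insert, hv2]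
      congr 1
      exact Finset.image_congr fun t ht => hv1 t (Finset.mem_range.1 ht)
    rw [himg]
    ext x
    constructor
    · rintro ⟨y, hy, c, hc, rfl⟩
      rw [hg.hull] at hy
      refine add_mem_conicHull (conicHull_subset (fun z hz => ?_) hy)
        (smul_mem_conicHull hc (subset_conicHull _ (Finset.mem_insert_self _ _)))
      exact subset_conicHull _ (Finset.mem_insert_of_mem hz)
    · rintro ⟨c, hc, rfl⟩
      refine Finset.sum_induction _ (fun x => x ∈ {x | ∃ y ∈ K, ∃ c : ℝ, 0 ≤ c ∧ x = y + c • w})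
        ?_ ?_ ?_
      · rintro _ _ ⟨y, hy, a, ha, rfl⟩ ⟨z, hz, b, hb, rfl⟩
        exact ⟨y + z, GEOx.K_add hg hy hz, a + b, add_nonneg ha hb, by rw [add_smul]; abel⟩
      · exact ⟨0, GEOx.K_zero hg, 0, le_rfl, by simp⟩
      · intro z hz
        rcases Finset.mem_insert.1 hz with h1 | h1
        · exact ⟨0, GEOx.K_zero hg, c z, hc z hz, by rw [h1, zero_add]⟩
        · obtain ⟨t, ht, rfl⟩ := Finset.mem_image.1 h1
          exact ⟨c (v t) • v t, GEOx.K_smul hg (hc _ hz) (GEOx.v_mem hg (Finset.mem_range.1 ht)), 0,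
            le_rfl, by simp⟩
  · -- half spaces
    intro x
    constructor
    · rintro ⟨y, hy, c, hc, rfl⟩ S hS
      rcases Finset.mem_union.1 hS with hS | hS
      · rw [Finset.mem_erase] at hS
        rw [hold S hS.2 hS.1, map_add, map_smul, smul_eq_mul]
        exact add_nonneg ((hg.half y).1 hy S hS.2) (mul_nonneg hc (hwS S hS.2 hS.1).le)
      · obtain ⟨x, hx, rfl⟩ := Finset.mem_image.1 hS
        rw [map_add, map_smul, hm0 x hx, smul_zero, add_zero]
        exact hm4 x hx y hy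
    · intro hx
      have hx1 : ∀ S ∈ s.Fc, S ≠ F → 0 ≤ bq (n S) x := by
        intro S hS hSF
        have h1 := hx S (Finset.mem_union_left _ (Finset.mem_erase.2 ⟨hSF, hS⟩))
        rwa [hold S hS hSF] at h1
      by_cases hxF : 0 ≤ bq (n F) x
      · refine ⟨x, (hg.half x).2 fun S hS => ?_, 0, le_rfl, by simp⟩
        by_cases h1 : S = F
        · rw [h1]
          exact hxF
        · exact hx1 S hS h1
      · push Not at hxF
        refine ⟨x - (bq (n F) x / bq (n F) w) • w, ?_, bq (n F) x / bq (n F) w,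
          (div_pos_of_neg_of_neg hxF hwF).le, by rw [sub_add_cancel]⟩
        obtain ⟨c, hc⟩ := GEOx.ker_repr h hg hF hd1
          (y := x - (bq (n F) x / bq (n F) w) • w) (by
            rw [map_sub, map_smul, smul_eq_mul, div_mul_cancel₀ _ hwF.ne, sub_self])
        rw [hc]
        refine GEOx.K_sum hg F _ fun t ht => GEOx.K_smul hg ?_ (GEOx.v_mem hg (h.lt F hF t ht))
        have h1 : bq (n' (insert s.N (F.erase t))) (∑ t ∈ F, c t • v t) =
            c t * bq (n' (insert s.N (F.erase t))) (v t) := by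
          rw [map_sum, ← Finset.add_sum_erase _ _ ht, map_smul, smul_eq_mul, Finset.sum_eq_zero,
            add_zero]
          intro r hr
          rw [map_smul, hm1 t ht r hr, smul_zero]
        rw [← hc, map_sub, map_smul, hm0 t ht, smul_zero, sub_zero] at h1
        have h2 := hx (insert s.N (F.erase t))
          (Finset.mem_union_right _ (Finset.mem_image_of_mem _ ht))
        rw [h1] at h2
        exact nonneg_of_mul_nonneg_left h2 (hm2 t ht)

end Pool.Agent.H95.Stk
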