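import Pool.Agent.H95.Stk.Defs

/-!
# Transfer of the incidences to an arbitrary realization
-/

namespace Pool.Agent.H95.Stk

open Pool.Agent.Helper101_Scrib (Amb conicHull IsFace linDim SameType IsPolytopeCone realization)

variable {d : ℕ}

namespace TRANSFERx

theorem indep {s : St} {v : ℕ → Amb d} (h : Good d s) (hI : Inc v s) {S : Finset ℕ}
    (hS : S ∈ s.Fc) {c : ℕ → ℝ} (hc : ∑ t ∈ S, c t • v t = 0) : ∀ t ∈ S, c t = 0 := by
  intro x hx
  obtain ⟨S', hS', hsub, hxS'⟩ := h.nbr S hS x hx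
  obtain ⟨n, hn0, hn1⟩ := hI S' hS'
  have h1 : bq n (∑ t ∈ S, c t • v t) = 0 := by rw [hc, map_zero]
  rw [map_sum, Finset.sum_eq_single x] at h1
  · rw [map_smul, smul_eq_mul] at h1
    have h2 := hn1 x (h.lt S hS x hx) hxS'
    rcases mul_eq_zero.1 h1 with h3 | h3
    · exact h3
    · exact absurd h3 h2.ne'
  · intro t ht htx
    rw [map_smul, hn0 t (hsub (Finset.mem_erase.2 ⟨htx, ht⟩)), smul_zero]
  · intro hx'
    exact absurd hx hx'

theorem sub_nrm {s : St} {v : ℕ → Amb d} (h : Good d s) (hI : Inc v s) {T : Finset ℕ}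
    (hT : Sub s T) : ∃ n, Nrm v s.N T n := by
  classical
  obtain ⟨S, hS, hTS⟩ := hT
  choose! f hf hfs hfx using h.nbr S hS
  choose! m hm using hI
  have hnn : ∀ S ∈ s.Fc, ∀ t < s.N, 0 ≤ bq (m S) (v t) := by
    intro S hS t ht
    by_cases htS : t ∈ S
    · rw [(hm S hS).1 t htS]
    · exact ((hm S hS).2 t ht htS).le
  have hval : ∀ x, bq (m S + ∑ x ∈ S \ T, m (f x)) x = bq (m S) x + ∑ y ∈ S \ T, bq (m (f y)) x := by
    intro x
    rw [map_add, LinearMap.add_apply, map_sum, LinearMap.sum_apply]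
  refine ⟨m S + ∑ x ∈ S \ T, m (f x), ?_, ?_⟩
  · intro t ht
    rw [hval, (hm S hS).1 t (hTS.1 ht), zero_add]
    refine Finset.sum_eq_zero fun y hy => ?_
    rw [Finset.mem_sdiff] at hy
    refine (hm (f y) (hf y hy.1)).1 t (hfs y hy.1 (Finset.mem_erase.2 ⟨?_, hTS.1 ht⟩))
    rintro rfl
    exact hy.2 ht
  · intro t ht htT
    rw [hval]
    by_cases htS : t ∈ S
    · have h1 : 0 < ∑ y ∈ S \ T, bq (m (f y)) (v t) := by
        refine Finset.sum_pos' (fun y hy => hnn _ (hf y (Finset.mem_sdiff.1 hy).1) t ht)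
          ⟨t, Finset.mem_sdiff.2 ⟨htS, htT⟩, ?_⟩
        exact (hm (f t) (hf t htS)).2 t ht (hfx t htS)
      have h2 := hnn S hS t ht
      linarith
    · have h1 := (hm S hS).2 t ht htS
      have h2 : 0 ≤ ∑ y ∈ S \ T, bq (m (f y)) (v t) :=
        Finset.sum_nonneg fun y hy => hnn _ (hf y (Finset.mem_sdiff.1 hy).1) t ht
      linarith

theorem exists_bq (φ : Amb d →ₗ[ℝ] ℝ) : ∃ n : Amb d, ∀ x, bq n x = φ x := by
  refine ⟨Fin.cons (-φ (fun j => if (0 : Fin (d + 1)) = j then 1 else 0))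
    fun i => φ (fun j => if i.succ = j then 1 else 0), fun x => ?_⟩
  rw [bq_apply, LinearMap.pi_apply_eq_sum_univ φ x, Fin.sum_univ_succ]
  simp only [Fin.cons_zero, Fin.cons_succ, smul_eq_mul]
  congr 1
  · ring
  · exact Finset.sum_congr rfl fun i _ => by ring

theorem bq_nonpos {h : Amb d} (hh : ∀ x ∈ Bc d, 0 ≤ bq h x) : bq h h ≤ 0 := by
  set r : ℝ := √(∑ i : Fin d, h i.succ ^ 2) with hr
  have hs0 : 0 ≤ ∑ i : Fin d, h i.succ ^ 2 := Finset.sum_nonneg fun i _ => sq_nonneg _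
  have hr0 : 0 ≤ r := Real.sqrt_nonneg _
  have hr2 : r ^ 2 = ∑ i : Fin d, h i.succ ^ 2 := Real.sq_sqrt hs0
  rw [bq_self, ← hr2]
  rcases hr0.eq_or_lt with h0 | h0
  · rw [← h0]
    have := sq_nonneg (h 0)
    linarith
  · have hb : (Fin.cons r (fun i : Fin d => -h i.succ) : Amb d) ∈ Bc d := by
      constructor
      · simp only [Fin.cons_zero, Fin.cons_succ, neg_sq]
        rw [hr2]
        linarith
      · rw [Fin.cons_zero]
        exact hr0
    have h1 := hh _ hb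
    rw [bq_apply] at h1
    simp only [Fin.cons_zero, Fin.cons_succ, mul_neg, Finset.sum_neg_distrib] at h1
    have h2 : ∑ i : Fin d, h i.succ * h i.succ = r ^ 2 := by
      rw [hr2]
      exact Finset.sum_congr rfl fun i _ => (sq _).symm
    rw [h2] at h1
    have h3 : r ≤ -h 0 := by
      by_contra hcon
      push Not at hcon
      nlinarith
    nlinarith

/-- the set of the generators in a simplicial face has the right dimension -/
theorem linDim_image {s : St} {v : ℕ → Amb d} (h : Good d s) (hI : Inc v s) {T : Finset ℕ}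
    (hT : Sub s T) : linDim (v '' (T : Set ℕ)) = T.card := by
  obtain ⟨S, hS, hTS⟩ := hT
  have h1 : LinearIndepOn ℝ v (S : Set ℕ) := by
    rw [linearIndepOn_finset_iff]
    intro c hc
    exact indep h hI hS hc
  have h2 : LinearIndepOn ℝ v (T : Set ℕ) := h1.mono (Finset.coe_subset.2 hTS.1)
  have h3 := finrank_span_eq_card h2
  unfold linDim
  rw [Set.image_eq_range]
  rw [h3]
  simp

/-- a point in the relative interior of a cone stays in the cone if a small multiple of a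
generator is subtracted -/
theorem exists_eps {F : Set (Amb d)} {z w : Amb d} (hz : z ∈ intrinsicInterior ℝ F)
    (h0 : (0 : Amb d) ∈ F) (hw : w ∈ F) : ∃ ε : ℝ, 0 < ε ∧ z - ε • w ∈ F := by
  obtain ⟨y, hy, hyz⟩ := mem_intrinsicInterior.1 hz
  have hmem : ∀ ε : ℝ, ε • ((0 : Amb d) -ᵥ w) +ᵥ z ∈ affineSpan ℝ F := by
    intro ε
    apply AffineSubspace.smul_vsub_vadd_mem
    · exact subset_affineSpan ℝ F h0
    · exact subset_affineSpan ℝ F hw
    · rw [← hyz]
      exact y.2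
  let g : ℝ → affineSpan ℝ F := fun ε => ⟨ε • ((0 : Amb d) -ᵥ w) +ᵥ z, hmem ε⟩
  have hg : Continuous g := by
    refine Continuous.subtype_mk ?_ _
    show Continuous fun ε : ℝ => ε • ((0 : Amb d) - w) + z
    fun_prop
  have hg0 : g 0 = y := by
    apply Subtype.ext
    show (0 : ℝ) • ((0 : Amb d) - w) + z = y
    rw [zero_smul, zero_add, hyz]
  have hopen : IsOpen (g ⁻¹' interior ((↑) ⁻¹' F : Set (affineSpan ℝ F))) :=
    isOpen_interior.preimage hg
  have h0mem : (0 : ℝ) ∈ g ⁻¹' interior ((↑) ⁻¹' F : Set (affineSpan ℝ F)) := by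
    rw [Set.mem_preimage, hg0]
    exact hy
  obtain ⟨r, hr, hball⟩ := Metric.isOpen_iff.1 hopen 0 h0mem
  refine ⟨r / 2, by positivity, ?_⟩
  have h1 : g (r / 2) ∈ interior ((↑) ⁻¹' F : Set (affineSpan ℝ F)) := by
    apply hball
    rw [Metric.mem_ball, dist_zero_right, Real.norm_eq_abs, abs_of_pos (by positivity)]
    linarith
  have h2' : g (r / 2) ∈ ((↑) ⁻¹' F : Set (affineSpan ℝ F)) := interior_subset h1
  have h2 : ((g (r / 2) : affineSpan ℝ F) : Amb d) ∈ F := h2'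
  have h3 : ((g (r / 2) : affineSpan ℝ F) : Amb d) = z - (r / 2) • w := by
    show (r / 2) • ((0 : Amb d) - w) + z = _
    rw [zero_sub, smul_neg]
    abel
  rwa [h3] at h2

end TRANSFERx

open TRANSFERx in
theorem transfer {s : St} {K : Set (Amb d)} {v : ℕ → Amb d} {n : Finset ℕ → Amb d} {i j : ℕ}
    (hd : 2 ≤ d) (h : Good d s) (hN : 0 < s.N) (hg : Geo s K v n) {K' : Set (Amb d)}
    (hK' : IsPolytopeCone d K') (hT : SameType K K') (hS : Scribed i j K') :
    ∃ v' : ℕ → Amb d, Inc v' s ∧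
      (∀ T, Sub s T → T.card = j + 1 → ∃ c : ℕ → ℝ, (∀ t ∈ T, 0 < c t) ∧
        ∑ t ∈ T, c t • v' t ∈ Bc d) ∧
      (∀ T, Sub s T → T.card = i + 1 → ∃ h, Nrm v' s.N T h ∧ bq h h ≤ 0) := by
  have hI : Inc v s := fun S hS => ⟨n S, hg.nrm S hS⟩
  have hnn : ∀ S ∈ s.Fc, ∀ t < s.N, 0 ≤ bq (n S) (v t) := by
    intro S hS t ht
    by_cases htS : t ∈ S
    · rw [(hg.nrm S hS).1 t htS]
    · exact ((hg.nrm S hS).2 t ht htS).le
  -- the generators are different
  have hsing : ∀ t < s.N, Sub s {t} := by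
    intro t ht
    obtain ⟨S, hS, htS⟩ := h.mem t ht
    refine ⟨S, hS, Finset.ssubset_iff_subset_ne.2 ⟨Finset.singleton_subset_iff.2 htS, ?_⟩⟩
    intro heq
    have h1 := h.card S hS
    rw [← heq, Finset.card_singleton] at h1
    omega
  have hinj : ∀ t < s.N, ∀ t' < s.N, v t = v t' → t = t' := by
    intro t ht t' ht' heq
    by_contra hne
    obtain ⟨m, hm0, hm1⟩ := sub_nrm h hI (hsing t ht)
    have h1 := hm0 t (Finset.mem_singleton_self t)
    have h2 := hm1 t' ht' (by rw [Finset.mem_singleton]; exact fun h => hne h.symm)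
    rw [← heq, h1] at h2
    exact lt_irrefl _ h2
  set s0 : Finset (Amb d) := (Finset.range s.N).image v with hs0
  have hmem0 : ∀ w, w ∈ s0 ↔ ∃ t < s.N, v t = w := by
    intro w
    rw [hs0, Finset.mem_image]
    simp only [Finset.mem_range]
  have hb : IsFace (s0 : Set (Amb d)) ∅ := by
    refine ⟨∑ S ∈ s.Fc, bq (n S), ?_, ?_⟩
    · intro x hx
      rw [Finset.mem_coe, hmem0] at hx
      obtain ⟨t, ht, rfl⟩ := hx
      rw [LinearMap.sum_apply]
      exact Finset.sum_nonneg fun S hS => hnn S hS t ht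
    · symm
      rw [Set.eq_empty_iff_forall_notMem]
      rintro x ⟨hx, hx0⟩
      rw [Finset.mem_coe, hmem0] at hx
      obtain ⟨t, ht, rfl⟩ := hx
      rw [LinearMap.sum_apply] at hx0
      obtain ⟨S, hS, htS⟩ := h.mem t ht
      obtain ⟨S', hS', -, htS'⟩ := h.nbr S hS t htS
      have h1 : 0 < ∑ S ∈ s.Fc, bq (n S) (v t) :=
        Finset.sum_pos' (fun S hS => hnn S hS t ht) ⟨S', hS', (hg.nrm S' hS').2 t ht htS'⟩
      exact h1.ne' hx0
  have hs : ∀ w ∈ s0, IsFace (s0 : Set (Amb d)) {w} := by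
    intro w hw
    rw [hmem0] at hw
    obtain ⟨t, ht, rfl⟩ := hw
    obtain ⟨m, hm0, hm1⟩ := sub_nrm h hI (hsing t ht)
    refine ⟨bq m, ?_, ?_⟩
    · intro x hx
      rw [Finset.mem_coe, hmem0] at hx
      obtain ⟨t', ht', rfl⟩ := hx
      by_cases h1 : t' ∈ ({t} : Finset ℕ)
      · rw [hm0 t' h1]
      · exact (hm1 t' ht' h1).le
    · ext x
      constructor
      · intro hx
        rw [Set.mem_singleton_iff] at hx
        subst hx
        exact ⟨Finset.mem_coe.2 ((hmem0 _).2 ⟨t, ht, rfl⟩), hm0 t (Finset.mem_singleton_self t)⟩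
      · rintro ⟨hx, hx0⟩
        rw [Finset.mem_coe, hmem0] at hx
        obtain ⟨t', ht', rfl⟩ := hx
        by_cases h1 : t' ∈ ({t} : Finset ℕ)
        · rw [Finset.mem_singleton] at h1
          rw [h1]
          rfl
        · exact absurd hx0 (hm1 t' ht' h1).ne'
  rw [hg.hull] at hT
  obtain ⟨X, hX, hXφ⟩ := realization (by omega) hb hs hK' hT
  -- transfer of the normal vectors
  have key : ∀ (T : Finset ℕ) (m : Amb d), (∀ t ∈ T, t < s.N) → Nrm v s.N T m →
      ∃ φ' : Amb d →ₗ[ℝ] ℝ, (∀ x ∈ K', 0 ≤ φ' x) ∧ (∀ t ∈ T, φ' (X (v t)) = 0) ∧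
        (∀ t < s.N, t ∉ T → 0 < φ' (X (v t))) ∧
        linDim {x | x ∈ K' ∧ φ' x = 0} = linDim (v '' (T : Set ℕ)) ∧
        ∀ x ∈ K', φ' x = 0 → ∃ c : ℕ → ℝ, (∀ t ∈ T, 0 ≤ c t) ∧ x = ∑ t ∈ T, c t • X (v t) := by
    intro T m hTN hm
    have hφ : ∀ w ∈ s0, 0 ≤ bq m w := by
      intro w hw
      rw [hmem0] at hw
      obtain ⟨t, ht, rfl⟩ := hw
      by_cases h1 : t ∈ T
      · rw [hm.1 t h1]
      · exact (hm.2 t ht h1).le
    obtain ⟨φ', h1, h2, -, h4, h5⟩ := hXφ (bq m) hφ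
    have hset : {w | w ∈ s0 ∧ bq m w = 0} = v '' (T : Set ℕ) := by
      ext w
      constructor
      · rintro ⟨hw, hw0⟩
        rw [hmem0] at hw
        obtain ⟨t, ht, rfl⟩ := hw
        refine ⟨t, ?_, rfl⟩
        rw [Finset.mem_coe]
        by_contra hcon
        exact (hm.2 t ht hcon).ne' hw0
      · rintro ⟨t, ht, rfl⟩
        rw [Finset.mem_coe] at ht
        exact ⟨(hmem0 _).2 ⟨t, hTN t ht, rfl⟩, hm.1 t ht⟩
    refine ⟨φ', h1, ?_, ?_, ?_, ?_⟩
    · intro t ht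
      exact (h2 _ ((hmem0 _).2 ⟨t, hTN t ht, rfl⟩)).2 (hm.1 t ht)
    · intro t ht htT
      refine lt_of_le_of_ne (h1 _ (hX _ ((hmem0 _).2 ⟨t, ht, rfl⟩))) fun h0 => ?_
      have h6 := (h2 _ ((hmem0 _).2 ⟨t, ht, rfl⟩)).1 h0.symm
      exact (hm.2 t ht htT).ne' h6
    · rw [h4, hset]
    · intro x hx hx0
      obtain ⟨c, hc0, hc1, hc2⟩ := h5 x hx hx0
      refine ⟨fun t => c (v t), fun t ht => hc0 _ ((hmem0 _).2 ⟨t, hTN t ht, rfl⟩), ?_⟩
      rw [hc2, hs0, Finset.sum_image]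
      · symm
        refine Finset.sum_subset (fun t ht => Finset.mem_range.2 (hTN t ht)) ?_
        intro t ht htT
        rw [Finset.mem_range] at ht
        show c (v t) • X (v t) = 0
        rw [hc1 _ ((hmem0 _).2 ⟨t, ht, rfl⟩) (hm.2 t ht htT).ne', zero_smul]
      · intro t ht t' ht' heq
        rw [Finset.mem_coe, Finset.mem_range] at ht ht'
        exact hinj t ht t' ht' heq
  have hI' : Inc (fun t => X (v t)) s := by
    intro S hS
    obtain ⟨φ', -, h2, h3, -, -⟩ := key S (n S) (h.lt S hS) (hg.nrm S hS)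
    obtain ⟨n', hn'⟩ := exists_bq φ'
    refine ⟨n', fun t ht => ?_, fun t ht htS => ?_⟩
    · rw [hn']
      exact h2 t ht
    · rw [hn']
      exact h3 t ht htS
  have hlt : ∀ T, Sub s T → ∀ t ∈ T, t < s.N := by
    rintro T ⟨S, hS, hTS⟩ t ht
    exact h.lt S hS t (hTS.1 ht)
  refine ⟨fun t => X (v t), hI', ?_, ?_⟩
  · intro T hTs hcard
    obtain ⟨m, hm⟩ := sub_nrm h hI hTs
    obtain ⟨φ', h1, h2, h3, h4, h5⟩ := key T m (hlt T hTs) hm
    rw [linDim_image h hI hTs, hcard] at h4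
    obtain ⟨z, hz, hzB, -⟩ := hS.2 {x | x ∈ K' ∧ φ' x = 0} ⟨φ', h1, rfl⟩ h4
    have hzF := intrinsicInterior_subset hz
    obtain ⟨c, hc0, hc1⟩ := h5 z hzF.1 hzF.2
    refine ⟨c, ?_, by rw [← hc1]; exact hzB⟩
    intro t ht
    have h0K : (0 : Amb d) ∈ K' := by
      obtain ⟨s1, hs1⟩ := hK'.1
      rw [hs1]
      exact Pool.Agent.Helper101_Scrib.zero_mem_conicHull s1
    obtain ⟨ε, hε, hεF⟩ := exists_eps (w := X (v t)) hz ⟨h0K, map_zero φ'⟩
      ⟨hX _ ((hmem0 _).2 ⟨t, hlt T hTs t ht, rfl⟩), h2 t ht⟩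
    obtain ⟨c', hc0', hc1'⟩ := h5 _ hεF.1 hεF.2
    obtain ⟨S, hSF, hTS⟩ := hTs
    classical
    have h6 : ∑ u ∈ S, (if u ∈ T then c u - (if u = t then ε else 0) - c' u else 0) • X (v u) = 0 := by
      have h7 : ∑ u ∈ S, (if u ∈ T then c u - (if u = t then ε else 0) - c' u else 0) • X (v u) =
          ∑ u ∈ T, (c u - (if u = t then ε else 0) - c' u) • X (v u) := by
        symm
        refine (Finset.sum_subset_zero_on_sdiff hTS.1 ?_ ?_)
        · intro u hu
          rw [Finset.mem_sdiff] at hu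
          rw [if_neg hu.2, zero_smul]
        · intro u hu
          rw [if_pos hu]
      rw [h7]
      have h8 : ∀ u ∈ T, (c u - (if u = t then ε else 0) - c' u) • X (v u) =
          c u • X (v u) - (if u = t then ε • X (v u) else 0) - c' u • X (v u) := by
        intro u _
        rw [sub_smul, sub_smul]
        split_ifs
        · rfl
        · rw [zero_smul]
      rw [Finset.sum_congr rfl h8, Finset.sum_sub_distrib, Finset.sum_sub_distrib, ← hc1, ← hc1',
        Finset.sum_ite_eq' T t, if_pos ht]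
      exact sub_self _
    have h9 := indep h hI' hSF h6 t (hTS.1 ht)
    rw [if_pos ht, if_pos rfl] at h9
    have h10 := hc0' t ht
    linarith
  · intro T hTs hcard
    obtain ⟨m, hm⟩ := sub_nrm h hI hTs
    obtain ⟨φ', h1, h2, h3, h4, h5⟩ := key T m (hlt T hTs) hm
    rw [linDim_image h hI hTs, hcard] at h4
    obtain ⟨l, -, hl1, hl2, hl3⟩ := hS.1 {x | x ∈ K' ∧ φ' x = 0} ⟨φ', h1, rfl⟩ h4
    obtain ⟨a, ha⟩ := exists_bq l
    refine ⟨a, ⟨?_, ?_⟩, bq_nonpos fun x hx => by rw [ha]; exact hl3 x hx⟩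
    · intro t ht
      rw [ha]
      have h6 : X (v t) ∈ {x | x ∈ K' ∧ φ' x = 0} :=
        ⟨hX _ ((hmem0 _).2 ⟨t, hlt T hTs t ht, rfl⟩), h2 t ht⟩
      rw [hl2] at h6
      exact h6.2
    · intro t ht htT
      rw [ha]
      have hK := hX _ ((hmem0 (v t)).2 ⟨t, ht, rfl⟩)
      refine lt_of_le_of_ne (hl1 _ hK) fun h0 => ?_
      have h6 : X (v t) ∈ {x | x ∈ K' ∧ l x = 0} := ⟨hK, h0.symm⟩
      rw [← hl2] at h6
      exact (h3 t ht htT).ne' h6.2

end Pool.Agent.H95.Stk
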