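import Pool.Agent.H95.Stk.Main
import Pool.Agent.H95.Stk.Basic
import Pool.Agent.H95.Stk.Comb
import Pool.Agent.H95.Stk.GeoE
import Pool.Agent.H95.Stk.Transfer

/-!
# Deeply stacked polytopes are not `(i, j)`-scribable for `j ≤ d - 3`
-/

namespace Pool.Agent.H95.Stk

open Pool.Agent.Helper101_Scrib (Amb conicHull IsFace linDim SameType IsPolytopeCone)

variable {d : ℕ}

/-! ### Iterated rounds -/

theorem iter_good {s : St} (hd : 2 ≤ d) (h : Good d s) (k : ℕ) : Good d (St.round^[k] s) := by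
  induction k with
  | zero => exact h
  | succ k ih =>
    rw [Function.iterate_succ_apply']
    exact (round_spec hd ih).1

theorem iter_N {s : St} (hd : 2 ≤ d) (h : Good d s) (k : ℕ) : s.N ≤ (St.round^[k] s).N := by
  induction k with
  | zero => exact le_rfl
  | succ k ih =>
    rw [Function.iterate_succ_apply']
    exact ih.trans (round_spec hd (iter_good hd h k)).2.1

theorem iter_sub {s : St} (hd : 2 ≤ d) (h : Good d s) (k : ℕ) {T : Finset ℕ} (hT : Sub s T) :
    Sub (St.round^[k] s) T := by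
  induction k with
  | zero => exact hT
  | succ k ih =>
    rw [Function.iterate_succ_apply']
    exact (round_spec hd (iter_good hd h k)).2.2.1 T ih

theorem iter_inc {s : St} {v : ℕ → Amb d} (hd : 2 ≤ d) (h : Good d s) (k : ℕ)
    (hI : Inc v (St.round^[k] s)) : Inc v s := by
  induction k with
  | zero => exact hI
  | succ k ih =>
    rw [Function.iterate_succ_apply'] at hI
    exact ih ((round_spec hd (iter_good hd h k)).2.2.2.1 v hI)

theorem mk_cnd {s : St} {v : ℕ → Amb d} (h : Good d s) {Nf : ℕ} {Pf : Finset ℕ → Prop}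
    (hN : s.round.N ≤ Nf) (hN' : s.N ≤ s.round.N) (hP1 : ∀ T, Sub s T → Pf T)
    (hP2 : ∀ T, Sub s.round T → Pf T) {F : Finset ℕ} (hF : F ∈ s.Fc) {a : ℕ} (ha : s.N ≤ a)
    (ha' : a < s.round.N) (hch : ∀ x ∈ F, insert a (F.erase x) ∈ s.round.Fc) {n : Amb d}
    (hn : Nrm v s.N F n) (hna : bq n (v a) < 0) {m : ℕ → Amb d}
    (hm : ∀ x ∈ F, Nrm v s.round.N (insert a (F.erase x)) (m x)) :
    Cnd d v Nf Pf F n a m where
  card := h.card F hF
  lt := fun t ht => (h.lt F hF t ht).trans_le (hN'.trans hN)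
  alt := ha'.trans_le hN
  ha := fun h' => absurd (h.lt F hF a h') (not_lt.2 ha)
  hn := hn.1
  hna := hna
  hm := fun x hx => (hm x hx).1
  hmx := fun x hx => by
    apply (hm x hx).2 x ((h.lt F hF x hx).trans_le hN')
    rw [Finset.mem_insert, Finset.mem_erase]
    rintro (h' | h')
    · have := h.lt F hF x hx
      omega
    · exact h'.1 rfl
  hP := fun T hT => hP1 T ⟨F, hF, hT⟩
  hP' := fun x hx T hT => hP2 T ⟨_, hch x hx, hT⟩

theorem chain {s : St} {v : ℕ → Amb d} (hd : 2 ≤ d) (h : Good d s) (k : ℕ)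
    (hI : Inc v (St.round^[k + 1] s)) :
    ∀ F ∈ s.Fc, ∃ n, Nrm v s.N F n ∧
      Pl d v (St.round^[k + 1] s).N (Sub (St.round^[k + 1] s)) k F n := by
  induction k generalizing s with
  | zero =>
    intro F hF
    obtain ⟨r1, r2, r3, r4, r5⟩ := round_spec hd h
    obtain ⟨a, a1, a2, a3, a4⟩ := r5 F hF
    rw [zero_add, Function.iterate_one] at hI ⊢
    obtain ⟨n, hn, hna⟩ := a4 v hI
    choose! m hm using hI
    exact ⟨n, hn, a, fun x => m (insert a (F.erase x)),
      mk_cnd h le_rfl r2 r3 (fun T hT => hT) hF a1 a2 a3 hn hna fun x hx => hm _ (a3 x hx)⟩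
  | succ k ih =>
    intro F hF
    obtain ⟨r1, r2, r3, r4, r5⟩ := round_spec hd h
    obtain ⟨a, a1, a2, a3, a4⟩ := r5 F hF
    rw [Function.iterate_succ_apply] at hI ⊢
    have hI' : Inc v s.round := iter_inc hd r1 (k + 1) hI
    obtain ⟨n, hn, hna⟩ := a4 v hI'
    have ih' := ih r1 hI
    choose! m hm hmP using ih'
    refine ⟨n, hn, a, fun x => m (insert a (F.erase x)), ?_, ?_⟩
    · exact mk_cnd h (iter_N hd r1 (k + 1)) r2 (fun T hT => iter_sub hd r1 (k + 1) (r3 T hT))
        (fun T hT => iter_sub hd r1 (k + 1) hT) hF a1 a2 a3 hn hna fun x hx => hm _ (a3 x hx)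
    · exact fun x hx => hmP _ (a3 x hx)

/-! ### Geometric existence -/

theorem geo_fold (hd : 2 ≤ d) (L : List (Finset ℕ)) : ∀ {s : St} {K : Set (Amb d)}
    {v : ℕ → Amb d} {n : Finset ℕ → Amb d}, Good d s → L.Nodup → (∀ F ∈ L, F ∈ s.Fc) →
      Geo s K v n → IsStacked d K →
      ∃ (K' : Set (Amb d)) (v' : ℕ → Amb d) (n' : Finset ℕ → Amb d),
        IsStacked d K' ∧ Geo (L.foldl St.stk s) K' v' n' := by
  induction L with
  | nil =>
    intro s K v n _ _ _ hg hK
    exact ⟨K, v, n, hK, hg⟩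
  | cons F L ih =>
    intro s K v n h hL hLs hg hK
    obtain ⟨K', v', n', hst, hg'⟩ := geo_step hd h (hLs F List.mem_cons_self) hg
    rw [List.nodup_cons] at hL
    rw [List.foldl_cons]
    apply ih (good_stk hd h (hLs F List.mem_cons_self)) hL.2 _ hg'
    · obtain ⟨K₀, h0, h1⟩ := hK
      exact ⟨K₀, h0, h1.tail hst⟩
    · intro F' hF'
      have hne : F' ≠ F := by
        rintro rfl
        exact hL.1 hF'
      show F' ∈ s.Fc.erase F ∪ F.image fun x => insert s.N (F.erase x)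
      rw [Finset.mem_union, Finset.mem_erase]
      exact Or.inl ⟨hne, hLs F' (List.mem_cons_of_mem _ hF')⟩

theorem geo_iter (hd : 2 ≤ d) (k : ℕ) : ∃ (K : Set (Amb d)) (v : ℕ → Amb d)
    (n : Finset ℕ → Amb d), IsStacked d K ∧ Geo (St.round^[k] (St.init d)) K v n := by
  induction k with
  | zero =>
    obtain ⟨K, v, n, h1, h2⟩ := geo_init (d := d) (by omega)
    exact ⟨K, v, n, ⟨K, h1, Relation.ReflTransGen.refl⟩, h2⟩
  | succ k ih =>
    obtain ⟨K, v, n, h1, h2⟩ := ih
    rw [Function.iterate_succ_apply']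
    exact geo_fold hd _ (iter_good hd (good_init hd) k) (Finset.nodup_toList _)
      (fun F hF => Finset.mem_toList.1 hF) h2 h1

/-- For `i ≤ j ≤ d - 3` there is a stacked `d`-polytope without `(i, j)`-scribed realization. -/
theorem main {i j : ℕ} (hij : i ≤ j) (hj : j + 3 ≤ d) :
    ∃ K : Set (Amb d), IsStacked d K ∧ IsPolytopeCone d K ∧
      ∀ K' : Set (Amb d), IsPolytopeCone d K' → SameType K K' → ¬ Scribed i j K' := by
  have hd : 2 ≤ d := by omega
  obtain ⟨k, hk⟩ := exists_depth (d := d) hd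
  obtain ⟨K, v, n, hK, hg⟩ := geo_iter (d := d) hd (k + 1)
  have hG0 : Good d (St.init d) := good_init hd
  have hG := iter_good hd hG0 (k + 1)
  have hN : 0 < (St.round^[k + 1] (St.init d)).N :=
    lt_of_lt_of_le (Nat.succ_pos d) (iter_N hd hG0 (k + 1))
  refine ⟨K, hK, geo_cone hd hG hN hg, ?_⟩
  intro K' hK' hT hS
  obtain ⟨v', hI, h2, h3⟩ := transfer hd hG hN hg hK' hT hS
  have h1 : ∀ T, Sub (St.round^[k + 1] (St.init d)) T →
      ∃ n, Nrm v' (St.round^[k + 1] (St.init d)).N T n := fun T hT => inc_sub_nrm hG hI hT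
  obtain ⟨F, hF, _⟩ := hG0.mem 0 (Nat.succ_pos d)
  obtain ⟨m, _, hPl⟩ := chain hd hG0 k hI F hF
  exact pile_false hij hj h1 h2 h3 k hk F m hPl

end Pool.Agent.H95.Stk
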