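import Pool.Agent.H95.Stk.Ang

/-!
# The angle recursion for a full pile
-/

namespace Pool.Agent.H95.Stk

open Pool.Agent.Helper101_Scrib (Amb)

variable {d : ℕ}

theorem bq_nondeg {w : Amb d} (h : ∀ x : Amb d, bq w x = 0) : w = 0 := by
  have h1 := h (fun k => Fin.cases (-(w 0)) (fun i => w (Fin.succ i)) k)
  rw [bq_apply] at h1
  simp only [Fin.cases_zero, Fin.cases_succ] at h1
  have h2 : 0 ≤ ∑ i : Fin d, w i.succ * w i.succ :=
    Finset.sum_nonneg fun i _ => mul_self_nonneg _
  have h3 : w 0 * w 0 = 0 := by nlinarith [mul_self_nonneg (w 0)]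
  have h4 : ∑ i : Fin d, w i.succ * w i.succ = 0 := by nlinarith
  rw [Finset.sum_eq_zero_iff_of_nonneg fun i _ => mul_self_nonneg _] at h4
  ext k
  refine Fin.cases ?_ (fun i => ?_) k
  · exact mul_self_eq_zero.1 h3
  · exact mul_self_eq_zero.1 (h4 i (Finset.mem_univ i))

namespace Cnd

variable {v : ℕ → Amb d} {N : ℕ} {P : Finset ℕ → Prop} {F : Finset ℕ} {n : Amb d} {a : ℕ}
  {m : ℕ → Amb d}

theorem indep (hc : Cnd d v N P F n a m) {c : ℕ → ℝ} (h : ∑ t ∈ insert a F, c t • v t = 0) :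
    ∀ t ∈ insert a F, c t = 0 := by
  rw [Finset.sum_insert hc.ha] at h
  have hF : ∀ x ∈ F, c x = 0 := by
    intro x hx
    have h1 := congrArg (bq (m x)) h
    rw [map_add, map_sum, map_zero, map_smul,
      hc.hm x hx a (Finset.mem_insert_self _ _), smul_zero, zero_add,
      Finset.sum_eq_single x] at h1
    · rw [map_smul, smul_eq_mul, mul_eq_zero] at h1
      exact h1.resolve_right (hc.hmx x hx).ne'
    · intro t ht htx
      rw [map_smul, hc.hm x hx t (Finset.mem_insert_of_mem (Finset.mem_erase.2 ⟨htx, ht⟩)),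
        smul_zero]
    · intro hx'
      exact absurd hx hx'
  intro t ht
  rw [Finset.mem_insert] at ht
  rcases ht with rfl | ht
  · have h1 : ∑ x ∈ F, c x • v x = 0 := Finset.sum_eq_zero fun x hx => by rw [hF x hx, zero_smul]
    rw [h1, add_zero] at h
    have h2 := congrArg (bq n) h
    rw [map_smul, map_zero, smul_eq_mul, mul_eq_zero] at h2
    exact h2.resolve_right hc.hna.ne
  · exact hF t ht

theorem indep_sub (hc : Cnd d v N P F n a m) {G : Finset ℕ} (hG : G ⊆ insert a F) {c : ℕ → ℝ}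
    (h : ∑ t ∈ G, c t • v t = 0) : ∀ t ∈ G, c t = 0 := by
  classical
  have h1 : ∑ t ∈ insert a F, (if t ∈ G then c t else 0) • v t = 0 := by
    rw [← h, ← Finset.sum_subset hG]
    · exact Finset.sum_congr rfl fun t ht => by rw [if_pos ht]
    · intro t _ ht
      rw [if_neg ht, zero_smul]
  intro t ht
  have := hc.indep h1 t (hG ht)
  rwa [if_pos ht] at this

theorem span (hc : Cnd d v N P F n a m) :
    Submodule.span ℝ (Set.range fun t : ↥(insert a F) => v t) = ⊤ := by
  apply LinearIndependent.span_eq_top_of_card_eq_finrank'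
  · rw [Fintype.linearIndependent_iff]
    intro g hg t
    let c : ℕ → ℝ := fun t => if ht : t ∈ insert a F then g ⟨t, ht⟩ else 0
    have h1 : ∑ t ∈ insert a F, c t • v t = 0 := by
      rw [← Finset.sum_coe_sort, ← hg]
      apply Finset.sum_congr rfl
      intro t _
      simp only [c]
      rw [dif_pos t.2]
    have h2 := hc.indep h1 t t.2
    simp only [c] at h2
    rwa [dif_pos t.2] at h2
  · rw [Fintype.card_coe, Finset.card_insert_of_notMem hc.ha, hc.card, Module.finrank_fin_fun]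

theorem ext' (hc : Cnd d v N P F n a m) {u u' : Amb d}
    (h : ∀ t ∈ insert a F, bq u (v t) = bq u' (v t)) : u = u' := by
  rw [← sub_eq_zero]
  apply bq_nondeg
  have h1 : (⊤ : Submodule ℝ (Amb d)) ≤ LinearMap.ker (bq (u - u')) := by
    rw [← hc.span, Submodule.span_le]
    rintro _ ⟨t, rfl⟩
    rw [SetLike.mem_coe, LinearMap.mem_ker, map_sub, LinearMap.sub_apply, h t t.2, sub_self]
  intro x
  exact h1 Submodule.mem_top

end Cnd

section

variable {v : ℕ → Amb d} {N : ℕ} {P : Finset ℕ → Prop} {j : ℕ}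

/-- A causal vector in the span of a face. -/
theorem exists_causal (h2 : ∀ T, P T → T.card = j + 1 → ∃ c : ℕ → ℝ, (∀ t ∈ T, 0 < c t) ∧
      ∑ t ∈ T, c t • v t ∈ Bc d) {G : Finset ℕ} (hG : j + 1 ≤ G.card)
    (hP : ∀ T, T ⊆ G → T.card = j + 1 → P T)
    (hind : ∀ c : ℕ → ℝ, ∑ t ∈ G, c t • v t = 0 → ∀ t ∈ G, c t = 0) :
    ∃ z ∈ Bc d, z ≠ 0 ∧ ∀ u, (∀ t ∈ G, bq u (v t) = 0) → bq u z = 0 := by
  classical
  obtain ⟨T, hTG, hT⟩ := Finset.exists_subset_card_eq hG
  obtain ⟨c, hc, hz⟩ := h2 T (hP T hTG hT) hT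
  refine ⟨_, hz, ?_, ?_⟩
  · intro h0
    have h1 : ∑ t ∈ G, (if t ∈ T then c t else 0) • v t = 0 := by
      rw [← h0, ← Finset.sum_subset hTG]
      · exact Finset.sum_congr rfl fun t ht => by rw [if_pos ht]
      · intro t _ ht
        rw [if_neg ht, zero_smul]
    obtain ⟨t, ht⟩ : T.Nonempty := by
      rw [← Finset.card_pos]; omega
    have h3 := hind _ h1 t (hTG ht)
    rw [if_pos ht] at h3
    exact (hc t ht).ne' h3
  · intro u hu
    rw [map_sum]
    apply Finset.sum_eq_zero
    intro t ht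
    rw [map_smul, hu t (hTG ht), smul_zero]

/-- A timelike vector in the span of a larger face. -/
theorem exists_timelike (h2 : ∀ T, P T → T.card = j + 1 → ∃ c : ℕ → ℝ, (∀ t ∈ T, 0 < c t) ∧
      ∑ t ∈ T, c t • v t ∈ Bc d) {G : Finset ℕ} (hG : j + 2 ≤ G.card)
    (hP : ∀ T, T ⊆ G → T.card = j + 1 → P T)
    (hind : ∀ c : ℕ → ℝ, ∑ t ∈ G, c t • v t = 0 → ∀ t ∈ G, c t = 0) :
    ∃ z : Amb d, 0 < z 0 ∧ bq z z < 0 ∧ ∀ u, (∀ t ∈ G, bq u (v t) = 0) → bq u z = 0 := by
  classical
  obtain ⟨T, hTG, hT⟩ := Finset.exists_subset_card_eq (show j + 1 ≤ G.card by omega)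
  obtain ⟨x, hxG, hxT⟩ : ∃ x ∈ G, x ∉ T := by
    by_contra hno
    push Not at hno
    have := Finset.card_le_card (show G ⊆ T from hno)
    omega
  obtain ⟨y, hy⟩ : T.Nonempty := by
    rw [← Finset.card_pos]; omega
  set T' : Finset ℕ := insert x (T.erase y) with hT'
  have hxy : x ≠ y := by rintro rfl; exact hxT hy
  have hT'G : T' ⊆ G := by
    intro t ht
    rw [hT', Finset.mem_insert, Finset.mem_erase] at ht
    rcases ht with rfl | ht
    · exact hxG
    · exact hTG ht.2
  have hxT' : x ∉ T.erase y := fun h => hxT (Finset.mem_of_mem_erase h)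
  have hT'c : T'.card = j + 1 := by
    rw [hT', Finset.card_insert_of_notMem hxT', Finset.card_erase_of_mem hy, hT]
    omega
  have hyT' : y ∉ T' := by
    rw [hT', Finset.mem_insert, Finset.mem_erase]
    rintro (h | h)
    · exact hxy h.symm
    · exact h.1 rfl
  obtain ⟨c, hc, hz⟩ := h2 T (hP T hTG hT) hT
  obtain ⟨c', hc', hz'⟩ := h2 T' (hP T' hT'G hT'c) hT'c
  have hxT'' : x ∈ T' := Finset.mem_insert_self _ _
  have hind2 : ∀ p q : ℝ, p • (∑ t ∈ T, c t • v t) + q • (∑ t ∈ T', c' t • v t) = 0 →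
      p = 0 ∧ q = 0 := by
    intro p q h
    have h1 : ∑ t ∈ G, (p * (if t ∈ T then c t else 0) + q * (if t ∈ T' then c' t else 0)) • v t
        = 0 := by
      rw [← h, Finset.smul_sum, Finset.smul_sum]
      simp only [add_smul, Finset.sum_add_distrib]
      congr 1
      · rw [← Finset.sum_subset hTG]
        · exact Finset.sum_congr rfl fun t ht => by rw [if_pos ht, mul_smul]
        · intro t _ ht
          rw [if_neg ht, mul_zero, zero_smul]
      · rw [← Finset.sum_subset hT'G]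
        · exact Finset.sum_congr rfl fun t ht => by rw [if_pos ht, mul_smul]
        · intro t _ ht
          rw [if_neg ht, mul_zero, zero_smul]
    have h3 := hind _ h1 y (hTG hy)
    have h4 := hind _ h1 x hxG
    simp only [if_pos hy, if_neg hyT', mul_zero, add_zero] at h3
    simp only [if_neg hxT, if_pos hxT'', mul_zero, zero_add] at h4
    exact ⟨(mul_eq_zero.1 h3).resolve_right (hc y hy).ne',
      (mul_eq_zero.1 h4).resolve_right (hc' x hxT'').ne'⟩
  have hne1 : ∑ t ∈ T, c t • v t ≠ 0 := by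
    intro h0
    have := (hind2 1 0 (by rw [h0]; simp)).1
    exact one_ne_zero this
  have hne2 : ∑ t ∈ T', c' t • v t ≠ 0 := by
    intro h0
    have := (hind2 0 1 (by rw [h0]; simp)).2
    exact one_ne_zero this
  obtain ⟨h5, h6⟩ := Bc_add hz hz' hne1 hne2 hind2
  refine ⟨_, h5, h6, ?_⟩
  intro u hu
  rw [map_add, map_sum, map_sum, Finset.sum_eq_zero, Finset.sum_eq_zero, add_zero]
  · intro t ht
    rw [map_smul, hu t (hT'G ht), smul_zero]
  · intro t ht
    rw [map_smul, hu t (hTG ht), smul_zero]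

theorem mem_Bc_of {z : Amb d} (h0 : 0 < z 0) (h : bq z z < 0) : z ∈ Bc d ∧ z ≠ 0 := by
  refine ⟨⟨?_, h0.le⟩, ?_⟩
  · rw [bq_self] at h; exact h.le
  · rintro rfl
    simp at h0

end

theorem sum_symm (F : Finset ℕ) (f : ℕ → ℕ → ℝ) :
    ∑ x ∈ F, ∑ y ∈ F.erase x, f x y = ∑ x ∈ F, ∑ y ∈ F.erase x, f y x := by
  apply Finset.sum_comm'
  intro x y
  simp only [Finset.mem_erase]
  tauto

/-- The key inequality. -/
theorem key_step {v : ℕ → Amb d} {N : ℕ} {P : Finset ℕ → Prop} {i j : ℕ} (hij : i ≤ j)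
    (hj : j + 3 ≤ d) {hh : Finset ℕ → Amb d} (h1 : ∀ T, P T → Nrm v N T (hh T))
    (h2 : ∀ T, P T → T.card = j + 1 → ∃ c : ℕ → ℝ, (∀ t ∈ T, 0 < c t) ∧
      ∑ t ∈ T, c t • v t ∈ Bc d)
    (h3 : ∀ T, P T → T.card = i + 1 → ∃ h, Nrm v N T h ∧ bq h h ≤ 0)
    {F : Finset ℕ} {n : Amb d} {a : ℕ} {m : ℕ → Amb d} (hc : Cnd d v N P F n a m) :
    (∑ x ∈ F, ∑ y ∈ insert a (F.erase x),
        ang (m x) (hh ((insert a (F.erase x)).erase y))) ≤
      (d - 1 : ℝ) * ∑ x ∈ F, ang n (hh (F.erase x)) ∧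
    Real.pi / 2 ≤ ∑ x ∈ F, ang n (hh (F.erase x)) := by
  classical
  -- the ridges of `F`
  have hGcard : ∀ x ∈ F, (F.erase x).card = d - 1 := fun x hx => by
    rw [Finset.card_erase_of_mem hx, hc.card]
  have hGP : ∀ x ∈ F, ∀ T, T ⊆ F.erase x → P T := fun x hx T hT =>
    hc.hP T (lt_of_le_of_lt hT (Finset.erase_ssubset hx))
  have hGsub : ∀ x, F.erase x ⊆ insert a F := fun x =>
    (Finset.erase_subset _ _).trans (Finset.subset_insert _ _)
  have hn0 : n ≠ 0 := by
    rintro rfl
    have := hc.hna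
    simp at this
  have hm0 : ∀ x ∈ F, m x ≠ 0 := by
    intro x hx h0
    have := hc.hmx x hx
    rw [h0] at this
    simp at this
  have hmG : ∀ x ∈ F, ∀ t ∈ F.erase x, bq (m x) (v t) = 0 := fun x hx t ht =>
    hc.hm x hx t (Finset.mem_insert_of_mem ht)
  have hnG : ∀ x, ∀ t ∈ F.erase x, bq n (v t) = 0 := fun x t ht =>
    hc.hn t (Finset.mem_of_mem_erase ht)
  have time : ∀ x ∈ F, ∃ z : Amb d, 0 < z 0 ∧ bq z z < 0 ∧
      ∀ u, (∀ t ∈ F.erase x, bq u (v t) = 0) → bq u z = 0 := fun x hx =>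
    exists_timelike h2 (by rw [hGcard x hx]; omega) (fun T hT _ => hGP x hx T hT)
      (fun c h => hc.indep_sub (hGsub x) h)
  obtain ⟨x0, hx0⟩ : F.Nonempty := by
    rw [← Finset.card_pos, hc.card]; omega
  have qn : 0 < bq n n := by
    obtain ⟨z, hz1, hz2, hz3⟩ := time x0 hx0
    exact bq_pos_of_orth hz1 hz2 (hz3 n (hnG x0)) hn0
  have qm : ∀ x ∈ F, 0 < bq (m x) (m x) := by
    intro x hx
    obtain ⟨z, hz1, hz2, hz3⟩ := time x hx
    exact bq_pos_of_orth hz1 hz2 (hz3 _ (hmG x hx)) (hm0 x hx)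
  -- (f1)
  have f1 : ∀ x ∈ F, ang n (m x) + ang (m x) (hh (F.erase x)) = ang n (hh (F.erase x)) := by
    intro x hx
    obtain ⟨z, hz1, hz2, hz3⟩ := time x hx
    obtain ⟨hzB, hz0⟩ := mem_Bc_of hz1 hz2
    obtain ⟨g0, gp⟩ := h1 _ (hGP x hx _ le_rfl)
    have gx : 0 < bq (hh (F.erase x)) (v x) := gp x (hc.lt x hx) (Finset.notMem_erase x F)
    have ga : 0 < bq (hh (F.erase x)) (v a) := gp a hc.alt
      (fun h => hc.ha (Finset.mem_of_mem_erase h))
    have hh0 : hh (F.erase x) ≠ 0 := by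
      intro h0
      rw [h0] at gx
      simp at gx
    have hB : 0 < bq (m x) (v x) / bq (hh (F.erase x)) (v x) := div_pos (hc.hmx x hx) gx
    apply ang_between (A := -(bq (m x) (v x) / bq (hh (F.erase x)) (v x) *
        bq (hh (F.erase x)) (v a)) / bq n (v a))
      (B := bq (m x) (v x) / bq (hh (F.erase x)) (v x)) hzB hz0 (hz3 _ (hnG x)) (hz3 _ g0) qn
      (bq_pos_of_orth hz1 hz2 (hz3 _ g0) hh0) (qm x hx)
    · exact (div_pos_of_neg_of_neg (neg_neg_of_pos (mul_pos hB ga)) hc.hna).le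
    · exact hB.le
    · apply hc.ext'
      intro t ht
      simp only [map_add, map_smul, LinearMap.add_apply, LinearMap.smul_apply, smul_eq_mul]
      rw [Finset.mem_insert] at ht
      rcases ht with rfl | ht
      · rw [hc.hm x hx t (Finset.mem_insert_self _ _), div_mul_cancel₀ _ hc.hna.ne]
        ring
      · by_cases htx : t = x
        · rw [htx, hc.hn x hx, mul_zero, zero_add, div_mul_cancel₀ _ gx.ne']
        · have htG : t ∈ F.erase x := Finset.mem_erase.2 ⟨htx, ht⟩
          rw [hmG x hx t htG, hc.hn t ht, g0 t htG, mul_zero, mul_zero, add_zero]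
  -- (f2)
  have f2 : ∀ x ∈ F, ∀ y ∈ F.erase x,
      ang (m x) (hh ((insert a (F.erase x)).erase y)) +
        ang (m y) (hh ((insert a (F.erase x)).erase y)) = ang (m x) (m y) := by
    intro x hx y hyx
    obtain ⟨hyne, hy⟩ := Finset.mem_erase.1 hyx
    have hya : y ≠ a := by rintro rfl; exact hc.ha hy
    have hxa : x ≠ a := by rintro rfl; exact hc.ha hx
    set R := (insert a (F.erase x)).erase y with hR
    have hyI : y ∈ insert a (F.erase x) := Finset.mem_insert_of_mem hyx
    have hRss : R ⊂ insert a (F.erase x) := Finset.erase_ssubset hyI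
    have hRmem : ∀ t, t ∈ R ↔ t = a ∨ (t ∈ F ∧ t ≠ x ∧ t ≠ y) := by
      intro t
      rw [hR, Finset.mem_erase, Finset.mem_insert, Finset.mem_erase]
      constructor
      · rintro ⟨h4, h5 | h5⟩
        · exact Or.inl h5
        · exact Or.inr ⟨h5.2, h5.1, h4⟩
      · rintro (rfl | h5)
        · exact ⟨hya.symm, Or.inl rfl⟩
        · exact ⟨h5.2.2, Or.inr ⟨h5.2.1, h5.1⟩⟩
    have hRcard : R.card = d - 1 := by
      rw [hR, Finset.card_erase_of_mem hyI, Finset.card_insert_of_notMem
        (fun h => hc.ha (Finset.mem_of_mem_erase h)), hGcard x hx]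
      omega
    have hRP : ∀ T, T ⊆ R → P T := fun T hT => hc.hP' x hx T (lt_of_le_of_lt hT hRss)
    have hRsub : R ⊆ insert a F := by
      intro t ht
      rw [hRmem] at ht
      rcases ht with rfl | ht
      · exact Finset.mem_insert_self _ _
      · exact Finset.mem_insert_of_mem ht.1
    obtain ⟨z, hz1, hz2, hz3⟩ := exists_timelike h2 (G := R) (by rw [hRcard]; omega)
      (fun T hT _ => hRP T hT) (fun c h => hc.indep_sub hRsub h)
    obtain ⟨hzB, hz0⟩ := mem_Bc_of hz1 hz2
    obtain ⟨g0, gp⟩ := h1 _ (hRP R le_rfl)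
    have hxR : x ∉ R := by
      rw [hRmem]; rintro (h | h)
      · exact hxa h
      · exact h.2.1 rfl
    have hyR : y ∉ R := by
      rw [hRmem]; rintro (h | h)
      · exact hya h
      · exact h.2.2 rfl
    have gx : 0 < bq (hh R) (v x) := gp x (hc.lt x hx) hxR
    have gy : 0 < bq (hh R) (v y) := gp y (hc.lt y hy) hyR
    have hh0 : hh R ≠ 0 := by
      intro h0
      rw [h0] at gx
      simp at gx
    have hmxR : ∀ t ∈ R, bq (m x) (v t) = 0 := by
      intro t ht
      rw [hRmem] at ht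
      apply hc.hm x hx
      rcases ht with rfl | ht
      · exact Finset.mem_insert_self _ _
      · exact Finset.mem_insert_of_mem (Finset.mem_erase.2 ⟨ht.2.1, ht.1⟩)
    have hmyR : ∀ t ∈ R, bq (m y) (v t) = 0 := by
      intro t ht
      rw [hRmem] at ht
      apply hc.hm y hy
      rcases ht with rfl | ht
      · exact Finset.mem_insert_self _ _
      · exact Finset.mem_insert_of_mem (Finset.mem_erase.2 ⟨ht.2.2, ht.1⟩)
    rw [ang_comm (m y)]
    apply ang_between (A := bq (hh R) (v x) / bq (m x) (v x))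
      (B := bq (hh R) (v y) / bq (m y) (v y)) hzB hz0 (hz3 _ hmxR) (hz3 _ hmyR)
      (qm x hx) (qm y hy) (bq_pos_of_orth hz1 hz2 (hz3 _ g0) hh0)
    · exact (div_pos gx (hc.hmx x hx)).le
    · exact (div_pos gy (hc.hmx y hy)).le
    · apply hc.ext'
      intro t ht
      simp only [map_add, map_smul, LinearMap.add_apply, LinearMap.smul_apply, smul_eq_mul]
      by_cases htx : t = x
      · have e : bq (m y) (v x) = 0 := hc.hm y hy x
          (Finset.mem_insert_of_mem (Finset.mem_erase.2 ⟨hyne.symm, hx⟩))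
        rw [htx, e, mul_zero, add_zero, div_mul_cancel₀ _ (hc.hmx x hx).ne']
      · by_cases hty : t = y
        · have e : bq (m x) (v y) = 0 := hc.hm x hx y
            (Finset.mem_insert_of_mem (Finset.mem_erase.2 ⟨hyne, hy⟩))
          rw [hty, e, mul_zero, zero_add, div_mul_cancel₀ _ (hc.hmx y hy).ne']
        · have htR : t ∈ R := by
            rw [hRmem]
            rw [Finset.mem_insert] at ht
            rcases ht with h | h
            · exact Or.inl h
            · exact Or.inr ⟨h, htx, hty⟩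
          rw [g0 t htR, hmxR t htR, hmyR t htR, mul_zero, mul_zero, add_zero]
  -- (f3)
  have f3 : ∀ x ∈ F, ∀ y ∈ F.erase x, ang (m x) (m y) ≤ ang n (m x) + ang n (m y) := by
    intro x hx y hyx
    obtain ⟨hyne, hy⟩ := Finset.mem_erase.1 hyx
    obtain ⟨z, hzB, hz0, hz3⟩ := exists_causal h2 (G := (F.erase x).erase y)
      (by rw [Finset.card_erase_of_mem hyx, hGcard x hx]; omega)
      (fun T hT _ => hGP x hx T (hT.trans (Finset.erase_subset _ _)))
      (fun c h => hc.indep_sub ((Finset.erase_subset _ _).trans (hGsub x)) h)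
    rw [ang_comm n (m x)]
    apply ang_tri hzB hz0 (hz3 _ ?_) (hz3 _ ?_) (hz3 _ ?_) (qm x hx) qn (qm y hy)
    · intro t ht
      exact hmG x hx t (Finset.mem_of_mem_erase ht)
    · intro t ht
      exact hnG x t (Finset.mem_of_mem_erase ht)
    · intro t ht
      rw [Finset.mem_erase, Finset.mem_erase] at ht
      exact hmG y hy t (Finset.mem_erase.2 ⟨ht.1, ht.2.2⟩)
  have hdc : ∀ x ∈ F, ((F.erase x).card : ℝ) = d - 1 := by
    intro x hx
    rw [hGcard x hx, Nat.cast_sub (by omega)]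
    simp
  constructor
  · -- the sum over the children
    have e1 : ∀ x ∈ F, ∑ y ∈ insert a (F.erase x),
        ang (m x) (hh ((insert a (F.erase x)).erase y)) =
        ang (m x) (hh (F.erase x)) +
          ∑ y ∈ F.erase x, ang (m x) (hh ((insert a (F.erase x)).erase y)) := by
      intro x hx
      have hax : a ∉ F.erase x := fun h => hc.ha (Finset.mem_of_mem_erase h)
      rw [Finset.sum_insert hax, Finset.erase_insert hax]
    rw [Finset.sum_congr rfl e1, Finset.sum_add_distrib]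
    have hsymR : ∀ x ∈ F, ∀ y ∈ F.erase x,
        (insert a (F.erase y)).erase x = (insert a (F.erase x)).erase y := by
      intro x hx y hyx
      obtain ⟨hyne, hy⟩ := Finset.mem_erase.1 hyx
      have hya : y ≠ a := by rintro rfl; exact hc.ha hy
      have hxa : x ≠ a := by rintro rfl; exact hc.ha hx
      rw [Finset.erase_insert_of_ne hxa.symm, Finset.erase_insert_of_ne hya.symm,
        Finset.erase_right_comm]
    have e2 : 2 * ∑ x ∈ F, ∑ y ∈ F.erase x, ang (m x) (hh ((insert a (F.erase x)).erase y)) =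
        ∑ x ∈ F, ∑ y ∈ F.erase x, ang (m x) (m y) := by
      rw [two_mul]
      nth_rewrite 2 [sum_symm]
      rw [← Finset.sum_add_distrib]
      apply Finset.sum_congr rfl
      intro x hx
      rw [← Finset.sum_add_distrib]
      apply Finset.sum_congr rfl
      intro y hy
      rw [hsymR x hx y hy]
      exact f2 x hx y hy
    have e3 : ∑ x ∈ F, ∑ y ∈ F.erase x, ang (m x) (m y) ≤
        ∑ x ∈ F, ∑ y ∈ F.erase x, (ang n (m x) + ang n (m y)) :=
      Finset.sum_le_sum fun x hx => Finset.sum_le_sum fun y hy => f3 x hx y hy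
    have e4 : ∑ x ∈ F, ∑ y ∈ F.erase x, (ang n (m x) + ang n (m y)) =
        2 * ((d - 1 : ℝ) * ∑ x ∈ F, ang n (m x)) := by
      have e5 : ∑ x ∈ F, ∑ y ∈ F.erase x, ang n (m x) = (d - 1 : ℝ) * ∑ x ∈ F, ang n (m x) := by
        rw [Finset.mul_sum]
        apply Finset.sum_congr rfl
        intro x hx
        rw [Finset.sum_const, nsmul_eq_mul, hdc x hx]
      have e6 : ∑ x ∈ F, ∑ y ∈ F.erase x, ang n (m y) = (d - 1 : ℝ) * ∑ x ∈ F, ang n (m x) := by
        rw [sum_symm F fun x y => ang n (m y)]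
        exact e5
      simp only [Finset.sum_add_distrib]
      rw [e5, e6]
      ring
    have e7 : ∑ x ∈ F, ang n (m x) + ∑ x ∈ F, ang (m x) (hh (F.erase x)) =
        ∑ x ∈ F, ang n (hh (F.erase x)) := by
      rw [← Finset.sum_add_distrib]
      exact Finset.sum_congr rfl f1
    have e8 : 0 ≤ ∑ x ∈ F, ang (m x) (hh (F.erase x)) :=
      Finset.sum_nonneg fun x _ => ang_nonneg _ _
    have hd2 : (0 : ℝ) ≤ d - 2 := by
      have : (2 : ℝ) ≤ d := by exact_mod_cast (by omega : 2 ≤ d)
      linarith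
    have e9 := mul_nonneg hd2 e8
    nlinarith
  · -- an acute dihedral angle at the apex
    obtain ⟨x, hx, y, hyx, hxy⟩ : ∃ x ∈ F, ∃ y ∈ F.erase x, bq (m x) (m y) < 0 := by
      by_contra hno
      push Not at hno
      obtain ⟨E0, hE0, hE0c⟩ := Finset.exists_subset_card_eq
        (show i ≤ (F.erase x0).card by rw [hGcard x0 hx0]; omega)
      have haE0 : a ∉ E0 := fun h => hc.ha (Finset.mem_of_mem_erase (hE0 h))
      have hEc : (insert a E0).card = i + 1 := by
        rw [Finset.card_insert_of_notMem haE0, hE0c]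
      have hEss : insert a E0 ⊂ insert a (F.erase x0) := by
        rw [Finset.ssubset_iff_subset_ne]
        refine ⟨Finset.insert_subset_insert _ hE0, fun h => ?_⟩
        have h5 := congrArg Finset.card h
        rw [hEc, Finset.card_insert_of_notMem
          (fun h => hc.ha (Finset.mem_of_mem_erase h)), hGcard x0 hx0] at h5
        omega
      obtain ⟨h, hN, hq⟩ := h3 _ (hc.hP' x0 hx0 _ hEss) hEc
      set A : ℕ → ℝ := fun x => bq h (v x) / bq (m x) (v x) with hA
      have hA0 : ∀ x ∈ F, 0 ≤ A x := by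
        intro x hx
        apply div_nonneg _ (hc.hmx x hx).le
        by_cases hxE : x ∈ insert a E0
        · exact (hN.1 x hxE).ge
        · exact (hN.2 x (hc.lt x hx) hxE).le
      have hhe : h = ∑ x ∈ F, A x • m x := by
        apply hc.ext'
        intro t ht
        rw [map_sum, LinearMap.sum_apply]
        simp only [map_smul, LinearMap.smul_apply, smul_eq_mul]
        rw [Finset.mem_insert] at ht
        rcases ht with rfl | ht
        · rw [hN.1 t (Finset.mem_insert_self _ _)]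
          symm
          apply Finset.sum_eq_zero
          intro x hx
          rw [hc.hm x hx t (Finset.mem_insert_self _ _), mul_zero]
        · rw [Finset.sum_eq_single t]
          · rw [hA]
            simp only
            rw [div_mul_cancel₀ _ (hc.hmx t ht).ne']
          · intro x hx hxt
            rw [hc.hm x hx t (Finset.mem_insert_of_mem (Finset.mem_erase.2 ⟨hxt.symm, ht⟩)),
              mul_zero]
          · intro h'
            exact absurd ht h'
      have hqe : bq h h = ∑ x ∈ F, (A x * A x * bq (m x) (m x) +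
          ∑ y ∈ F.erase x, A x * A y * bq (m x) (m y)) := by
        have h5 : bq h h = ∑ x ∈ F, ∑ y ∈ F, A x * A y * bq (m x) (m y) := by
          have h6 : bq h h = bq (∑ x ∈ F, A x • m x) (∑ y ∈ F, A y • m y) := by rw [← hhe]
          rw [h6]
          simp only [map_sum, LinearMap.sum_apply, map_smul, LinearMap.smul_apply, smul_eq_mul,
            Finset.mul_sum]
          rw [Finset.sum_comm]
          apply Finset.sum_congr rfl
          intro x _
          apply Finset.sum_congr rfl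
          intro y _
          ring
        rw [h5]
        apply Finset.sum_congr rfl
        intro x hx
        rw [Finset.add_sum_erase _ (fun y => A x * A y * bq (m x) (m y)) hx]
      have hx0E : x0 ∉ insert a E0 := by
        rw [Finset.mem_insert]
        rintro (h5 | h5)
        · rw [h5] at hx0; exact hc.ha hx0
        · exact Finset.notMem_erase x0 F (hE0 h5)
      have hAx0 : 0 < A x0 := div_pos (hN.2 x0 (hc.lt x0 hx0) hx0E) (hc.hmx x0 hx0)
      have hpos : 0 < bq h h := by
        rw [hqe]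
        apply Finset.sum_pos'
        · intro x hx
          apply add_nonneg
          · exact mul_nonneg (mul_nonneg (hA0 x hx) (hA0 x hx)) (qm x hx).le
          · apply Finset.sum_nonneg
            intro y hy
            exact mul_nonneg (mul_nonneg (hA0 x hx) (hA0 y (Finset.mem_of_mem_erase hy)))
              (hno x hx y hy)
        · refine ⟨x0, hx0, add_pos_of_pos_of_nonneg ?_ ?_⟩
          · exact mul_pos (mul_pos hAx0 hAx0) (qm x0 hx0)
          · apply Finset.sum_nonneg
            intro y hy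
            exact mul_nonneg (mul_nonneg (hA0 x0 hx0) (hA0 y (Finset.mem_of_mem_erase hy)))
              (hno x0 hx0 y hy)
      linarith
    obtain ⟨hyne, hy⟩ := Finset.mem_erase.1 hyx
    have g1 := ang_of_nonpos hxy.le
    have g2 := f3 x hx y hyx
    have g3 : ang n (m x) ≤ ang n (hh (F.erase x)) := by
      rw [← f1 x hx]
      linarith [ang_nonneg (m x) (hh (F.erase x))]
    have g4 : ang n (m y) ≤ ang n (hh (F.erase y)) := by
      rw [← f1 y hy]
      linarith [ang_nonneg (m y) (hh (F.erase y))]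
    have g5 : ang n (hh (F.erase x)) + ang n (hh (F.erase y)) ≤
        ∑ x ∈ F, ang n (hh (F.erase x)) := by
      rw [← Finset.add_sum_erase F (fun x => ang n (hh (F.erase x))) hx]
      have := Finset.single_le_sum (f := fun x => ang n (hh (F.erase x)))
        (fun z _ => ang_nonneg _ _) hyx
      linarith
    linarith

theorem pl_bound {v : ℕ → Amb d} {N : ℕ} {P : Finset ℕ → Prop} {i j : ℕ} (hij : i ≤ j)
    (hj : j + 3 ≤ d) {hh : Finset ℕ → Amb d} (h1 : ∀ T, P T → Nrm v N T (hh T))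
    (h2 : ∀ T, P T → T.card = j + 1 → ∃ c : ℕ → ℝ, (∀ t ∈ T, 0 < c t) ∧
      ∑ t ∈ T, c t • v t ∈ Bc d)
    (h3 : ∀ T, P T → T.card = i + 1 → ∃ h, Nrm v N T h ∧ bq h h ≤ 0) (k : ℕ) :
    ∀ (F : Finset ℕ) (n : Amb d), Pl d v N P k F n →
      ((d : ℝ) / (d - 1)) ^ k * (Real.pi / 2) ≤ ∑ x ∈ F, ang n (hh (F.erase x)) := by
  have hd1 : (0 : ℝ) < d - 1 := by
    have : (3 : ℝ) ≤ d := by exact_mod_cast (by omega : 3 ≤ d)
    linarith
  induction k with
  | zero =>
    rintro F n ⟨a, m, hc⟩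
    rw [pow_zero, one_mul]
    exact (key_step hij hj h1 h2 h3 hc).2
  | succ k ih =>
    rintro F n ⟨a, m, hc, hch⟩
    have h5 := (key_step hij hj h1 h2 h3 hc).1
    have h6 : ∑ x ∈ F, ((d : ℝ) / (d - 1)) ^ k * (Real.pi / 2) ≤
        ∑ x ∈ F, ∑ y ∈ insert a (F.erase x), ang (m x) (hh ((insert a (F.erase x)).erase y)) :=
      Finset.sum_le_sum fun x hx => ih _ _ (hch x hx)
    rw [Finset.sum_const, hc.card, nsmul_eq_mul] at h6
    have h7 := h6.trans h5
    rw [pow_succ]
    have h8 : ((d : ℝ) / (d - 1)) ^ k * (d / (d - 1)) * (Real.pi / 2) =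
        (d * (((d : ℝ) / (d - 1)) ^ k * (Real.pi / 2))) / (d - 1) := by
      ring
    rw [h8, div_le_iff₀ hd1]
    linarith

/-- A full pile of large depth is impossible. -/
theorem pile_false {v : ℕ → Amb d} {N : ℕ} {P : Finset ℕ → Prop} {i j : ℕ} (hij : i ≤ j)
    (hj : j + 3 ≤ d) (h1 : ∀ T, P T → ∃ n, Nrm v N T n)
    (h2 : ∀ T, P T → T.card = j + 1 → ∃ c : ℕ → ℝ, (∀ t ∈ T, 0 < c t) ∧
      ∑ t ∈ T, c t • v t ∈ Bc d)
    (h3 : ∀ T, P T → T.card = i + 1 → ∃ h, Nrm v N T h ∧ bq h h ≤ 0) (k : ℕ)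
    (hk : 2 * (d : ℝ) < ((d : ℝ) / (d - 1)) ^ k) (F : Finset ℕ) (n : Amb d) :
    ¬ Pl d v N P k F n := by
  intro hP
  choose! hh hhh using h1
  have h4 := pl_bound hij hj hhh h2 h3 k F n hP
  have hcard : F.card = d := by
    cases k with
    | zero => obtain ⟨a, m, hc⟩ := hP; exact hc.card
    | succ k => obtain ⟨a, m, hc, _⟩ := hP; exact hc.card
  have h5 : ∑ x ∈ F, ang n (hh (F.erase x)) ≤ ∑ x ∈ F, Real.pi :=
    Finset.sum_le_sum fun x _ => ang_le_pi _ _
  rw [Finset.sum_const, hcard, nsmul_eq_mul] at h5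
  have hpi := Real.pi_pos
  nlinarith

theorem exists_depth (hd : 2 ≤ d) : ∃ k : ℕ, 2 * (d : ℝ) < ((d : ℝ) / (d - 1)) ^ k := by
  have h1 : (2 : ℝ) ≤ d := by exact_mod_cast hd
  have : 1 < (d : ℝ) / (d - 1) := by
    rw [one_lt_div (by linarith)]
    linarith
  exact pow_unbounded_of_one_lt _ this

end Pool.Agent.H95.Stk
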